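import Pool.Agent.Work.MP_440970_an.FC.Defs

/-!
# Flux certificates for gradient fields: the statements of the items
-/

open MeasureTheory Set Filter Topology
open scoped ContDiff ENNReal

namespace Pool.Agent.Work.MP_440970_an.FC

open BH

/-! ## Part I: the weak inequality -/

/-- the jet of the field `e + A x` -/
def jp (e : Fin 3 → ℝ) (A : Fin 3 → Fin 3 → ℝ) (x : E3) : J8 :=
  ![e 0 + ∑ j, A 0 j * x j, e 1 + ∑ j, A 1 j * x j, e 2 + ∑ j, A 2 j * x j, x 0 * A 0 1,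
    x 0 * A 0 2, x 0 * A 1 1, x 0 * A 1 2, x 0 * A 2 2]

/-- [SWpf] -/
def S_SWpf : Prop := ∀ (F : Fin 3 → E3 → ℝ) (U : Set E3) (e : Fin 3 → ℝ)
  (A : Fin 3 → Fin 3 → ℝ), SW F U → (∀ i j, A i j = A j i) → ∑ i, A i i = 0 →
  SW (pf F e A) U ∧ ∀ x ∈ U, jet (pf F e A) x = jet F x + jp e A x

/-- [Gen] generic perturbations have no zero jets -/
def S_Gen : Prop := ∀ (F : Fin 3 → E3 → ℝ) (e : Fin 3 → ℝ) (ε : ℝ), SW F half → 0 < ε →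
  ∃ (e' : Fin 3 → ℝ) (A : Fin 3 → Fin 3 → ℝ), (∀ i j, A i j = A j i) ∧ ∑ i, A i i = 0 ∧
    (∀ i, |e' i - e i| < ε) ∧ (∀ i j, |A i j| < ε) ∧ ∀ x ∈ half, jet F x + jp e' A x ≠ 0

/-- [JetNJ] the derivatives of the components of the jet -/
def S_JetNJ : Prop := ∀ (F : Fin 3 → E3 → ℝ) (U : Set E3), SW F U → ∀ x ∈ U, ∀ k,
  NJ (fun y => jet F y k) x (jet F x k) (fun i => Am (jet F x) (tau F x) i k) (Bm (tau F x) k)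

/-- [ChainG] chain rule for normalised data -/
def S_ChainG : Prop := ∀ (M : J8 → ℝ) (g : E3 → J8) (x : E3) (v : Fin 3 → J8) (l : J8),
  (∀ k, NJ (fun y => g y k) x (g x k) (fun i => v i k) (l k)) → ContDiffAt ℝ 2 M (g x) →
  NJ (fun y => M (g y)) x (M (g x)) (fun i => ∑ k, pz k M (g x) * v i k)
    (∑ k, ∑ l, pz k (pz l M) (g x) * (∑ i, v i k * v i l) + ∑ k, pz k M (g x) * l k)

/-- [ChainY] chain rule, first order -/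
def S_ChainY : Prop := ∀ (G : J8 → ℝ) (g : E3 → J8) (x : E3) (v : Fin 3 → J8) (l : J8),
  (∀ k, NJ (fun y => g y k) x (g x k) (fun i => v i k) (l k)) → ContDiffAt ℝ 1 G (g x) →
  ContDiffAt ℝ 1 (fun y => G (g y)) x ∧
    ∀ i, x 0 * pd i (fun y => G (g y)) x = ∑ k, pz k G (g x) * v i k

/-- [Ibp] integration by parts -/
def S_Ibp : Prop := ∀ (φ G : E3 → ℝ) (U : Set E3) (i : Fin 3), IsOpen U → ContDiff ℝ 1 φ →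
  HasCompactSupport φ → tsupport φ ⊆ U → ContDiffOn ℝ 1 G U →
  Integrable (fun x => pd i φ x * G x) ∧ Integrable (fun x => φ x * pd i G x) ∧
  ∫ x, pd i φ x * G x = -∫ x, φ x * pd i G x

/-- [Weak0] the weak inequality for fields without zero jets -/
def S_Weak0 : Prop := ∀ (p : ℝ) (M : J8 → ℝ) (Y : Fin 3 → J8 → ℝ), FCert p M Y →
  ∀ F : Fin 3 → E3 → ℝ, SW F half → (∀ x ∈ half, jet F x ≠ 0) → ∀ φ, Test φ →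
  0 ≤ ∫ x, (M (jet F x) * lt φ x - ∑ i, Y i (jet F x) * pd i φ x)

/-- [Weak] the weak inequality -/
def S_Weak : Prop := ∀ (p : ℝ) (M : J8 → ℝ) (Y : Fin 3 → J8 → ℝ), FCert p M Y →
  ∀ F : Fin 3 → E3 → ℝ, SW F half → ∀ (e : Fin 3 → ℝ) (φ : E3 → ℝ), Test φ →
  0 ≤ ∫ x, (M (jet F x + jt e) * lt φ x - ∑ i, Y i (jet F x + jt e) * pd i φ x)

/-! ## Part II: the inequality on the boundary for nice fields -/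

/-- the bound used for the functions of a certificate -/
def LipAt (p : ℝ) (G : J8 → ℝ) (e : Fin 3 → ℝ) (C : ℝ) : Prop :=
  ∀ v : J8, |G (v + jt e) - G (jt e)| ≤ C * ‖v‖ ∧ |G (v + jt e) - G (jt e)| ≤ C * ‖v‖ ^ p

/-- [Lip] -/
def S_Lip : Prop := ∀ (p : ℝ) (G : J8 → ℝ) (e : Fin 3 → ℝ), 0 < p → p < 1 → e ≠ 0 →
  Continuous G → (∀ z, z ≠ 0 → ContDiffAt ℝ 1 G z) → (∃ C, ∀ z, |G z| ≤ C * ‖z‖ ^ p) →
  ∃ C, 0 ≤ C ∧ LipAt p G e C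

/-- [Vol] -/
def S_Vol : Prop := MeasurePreserving (fun q : ℝ × ℂ => cp q.1 q.2) (volume.prod volume) volume ∧
  MeasurableEmbedding fun q : ℝ × ℂ => cp q.1 q.2

/-- the integral over the horizontal plane at height `t` -/
noncomputable def mm (G : J8 → ℝ) (F : Fin 3 → E3 → ℝ) (e : Fin 3 → ℝ) (t : ℝ) : ℝ :=
  ∫ z : ℂ, (G (jet F (cp t z) + jt e) - G (jt e))

/-- [Cont] -/
def S_Cont : Prop := ∀ (p : ℝ) (G : J8 → ℝ) (e : Fin 3 → ℝ) (C : ℝ), Continuous G → 0 ≤ C →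
  LipAt p G e C → ∀ (F : Fin 3 → E3 → ℝ) (U : Set E3) (b : ℂ → ℝ), Nic F U b →
  (∀ t, 0 ≤ t → Integrable fun z : ℂ => G (jet F (cp t z) + jt e) - G (jt e)) ∧
  ContinuousOn (mm G F e) (Ici 0) ∧ Tendsto (mm G F e) atTop (𝓝 0)

/-- test functions on the half-line -/
structure TestT (θ : ℝ → ℝ) : Prop where
  smooth : ContDiff ℝ ∞ θ
  comp : HasCompactSupport θ
  supp : tsupport θ ⊆ Ioi 0
  nonneg : ∀ x, 0 ≤ θ x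

/-- [SlabW] the weak inequality with the constants subtracted -/
def S_SlabW : Prop := ∀ (p : ℝ) (M : J8 → ℝ) (Y : Fin 3 → J8 → ℝ), FCert p M Y →
  ∀ F : Fin 3 → E3 → ℝ, SW F half → ∀ (e : Fin 3 → ℝ) (φ : E3 → ℝ), Test φ →
  0 ≤ ∫ x, ((M (jet F x + jt e) - M (jt e)) * lt φ x -
    ∑ i, (Y i (jet F x + jt e) - Y i (jt e)) * pd i φ x)

/-- a test function on `ℝ³` -/
noncomputable def tR (θ ψ : ℝ → ℝ) (R : ℝ) (x : E3) : ℝ := θ (x 0) * (ψ (x 1 / R) * ψ (x 2 / R))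

/-- [TestR] -/
def S_TestR : Prop := ∀ (θ ψ : ℝ → ℝ) (R : ℝ), TestT θ → ContDiff ℝ ∞ ψ → HasCompactSupport ψ →
  (∀ s, 0 ≤ ψ s) → 0 < R → Test (tR θ ψ R) ∧ ∀ x,
    pd 0 (tR θ ψ R) x = deriv θ (x 0) * (ψ (x 1 / R) * ψ (x 2 / R)) ∧
    pd 1 (tR θ ψ R) x = θ (x 0) * (deriv ψ (x 1 / R) / R * ψ (x 2 / R)) ∧
    pd 2 (tR θ ψ R) x = θ (x 0) * (ψ (x 1 / R) * (deriv ψ (x 2 / R) / R)) ∧
    lt (tR θ ψ R) x = deriv (deriv fun s => s * θ s) (x 0) * (ψ (x 1 / R) * ψ (x 2 / R)) +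
      x 0 * θ (x 0) * (deriv (deriv ψ) (x 1 / R) / R ^ 2 * ψ (x 2 / R) +
        ψ (x 1 / R) * (deriv (deriv ψ) (x 2 / R) / R ^ 2))

/-- [Slab] -/
def S_Slab : Prop := ∀ (p : ℝ) (M : J8 → ℝ) (Y : Fin 3 → J8 → ℝ), 0 < p → p < 1 → FCert p M Y →
  ∀ (F : Fin 3 → E3 → ℝ) (U : Set E3) (b : ℂ → ℝ), Nic F U b →
  ∀ (e : Fin 3 → ℝ) (θ : ℝ → ℝ), e ≠ 0 → TestT θ →
  0 ≤ ∫ t in Ioi (0 : ℝ), (mm M F e t * deriv (deriv fun s => s * θ s) t -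
    mm (Y 0) F e t * deriv θ t)

/-- [OneD] -/
def S_OneD : Prop := ∀ m y : ℝ → ℝ, ContinuousOn m (Ici 0) → ContinuousOn y (Ici 0) →
  Tendsto m atTop (𝓝 0) → Tendsto y atTop (𝓝 0) →
  (∀ θ, TestT θ → 0 ≤ ∫ t in Ioi (0 : ℝ), (m t * deriv (deriv fun s => s * θ s) t -
    y t * deriv θ t)) → 0 ≤ m 0 - y 0

/-- [Nice] -/
def S_Nice : Prop := ∀ (p : ℝ) (M : J8 → ℝ) (Y : Fin 3 → J8 → ℝ), 0 < p → p < 1 → FCert p M Y →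
  ∀ (F : Fin 3 → E3 → ℝ) (U : Set E3) (b : ℂ → ℝ), Nic F U b → ∀ e : Fin 3 → ℝ, e ≠ 0 →
  0 ≤ ∫ z : ℂ, (gb M Y (fun i => F i (cp 0 z) + e i) - gb M Y e)

/-! ## Part III: systems in `H^p` -/

/-- [Grad] gradient estimate for harmonic functions -/
def S_Grad : Prop := ∃ C : ℝ, 0 < C ∧ ∀ (u : E3 → ℝ) (x : E3) (r A : ℝ), 0 < r →
  (∀ y : E3, ∑ i, (y i - x i) ^ 2 ≤ r ^ 2 → ContDiffAt ℝ ∞ u y ∧ ∑ i, pd i (pd i u) y = 0 ∧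
    |u y| ≤ A) → ∀ i, |pd i u x| ≤ C * A / r

/-- [MxMeas] the maximal function is measurable -/
def S_MxMeas : Prop := ∀ u : E3 → ℝ, Measurable (Mx u)

/-- [MaxP] -/
def S_MaxP : Prop := ∀ (p : ℝ) (u : E3 → ℝ), 0 < p → ∫⁻ z, Mx u z ^ p < ⊤ →
  ∃ C : ℝ, 0 ≤ C ∧ ∀ (t : ℝ) (z : ℂ), 0 < t → |u (cp t z)| ≤ C * t ^ (-(2 / p))

/-- [HpJet] -/
def S_HpJet : Prop := ∀ (p : ℝ) (u : Fin 3 → E3 → ℝ), 0 < p → SW u half →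
  (∀ i, ∫⁻ z, Mx (u i) z ^ p < ⊤) → ∃ C : ℝ, 0 ≤ C ∧ ∀ (τ t : ℝ) (z : ℂ), 0 < τ → 0 ≤ t →
    ‖jet (fun i x => u i (sft τ x)) (cp t z)‖ₑ ≤ ENNReal.ofReal C * ∑ i, Mx (u i) z ∧
    ‖jet (fun i x => u i (sft τ x)) (cp t z)‖ ≤ C * (t + τ) ^ (-(2 / p))

/-- [HpNic] -/
def S_HpNic : Prop := ∀ (p : ℝ) (u : Fin 3 → E3 → ℝ), 0 < p → p < 1 → SW u half →
  (∀ i, ∫⁻ z, Mx (u i) z ^ p < ⊤) → ∀ τ : ℝ, 0 < τ → ∃ b : ℂ → ℝ,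
    Nic (fun i x => u i (sft τ x)) {x | -τ < x 0} b

/-- [HpJen] -/
def S_HpJen : Prop := ∀ (p : ℝ) (M : J8 → ℝ) (Y : Fin 3 → J8 → ℝ), 0 < p → p < 1 →
  FCert p M Y → ∀ u : Fin 3 → E3 → ℝ, SW u half → (∀ i, ∫⁻ z, Mx (u i) z ^ p < ⊤) →
  ∀ f : Fin 3 → ℂ → ℝ, (∀ i, Measurable (f i)) →
  (∀ᵐ z : ℂ, ∀ i, Tendsto (fun t : ℝ => u i (cp t z)) (𝓝[>] 0) (𝓝 (f i z))) →
  ∀ e : Fin 3 → ℝ, e ≠ 0 →
  0 ≤ ∫ z : ℂ, (gb M Y (fun i => f i z + e i) - gb M Y e)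

/-- [NotOnto] -/
def S_NotOnto : Prop := ∀ (p : ℝ) (M : J8 → ℝ) (Y : Fin 3 → J8 → ℝ) (e : Fin 3 → ℝ), 0 < p →
  p < 1 → FCert p M Y → 0 < gb M Y e → ¬ TOnto p

/-! ## Part IV: real point charges -/

/-- [Ker] the derivatives of the field of a point charge; `r` is the distance to the charge -/
def S_Ker : Prop := ∀ x : E3, x ≠ 0 → ∀ r : ℝ, r = √(x 0 ^ 2 + x 1 ^ 2 + x 2 ^ 2) →
  (∀ i, ContDiffAt ℝ ∞ (EE i) x) ∧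
  (∀ i j, pd j (EE i) x = (if i = j then 1 else 0) / r ^ 3 - 3 * x i * x j / r ^ 5) ∧
  ∀ i j k, pd k (pd j (EE i)) x = -3 * ((if i = j then x k else 0) + (if i = k then x j else 0) +
    if j = k then x i else 0) / r ^ 5 + 15 * x i * x j * x k / r ^ 7

/-- [KerB] bounds for the derivatives of the field of a point charge -/
def S_KerB : Prop := ∃ C : ℝ, ∀ x : E3, x ≠ 0 →
  (∀ i j, |pd j (EE i) x| * ‖x‖ ^ 3 ≤ C) ∧ (∀ i j k, |pd k (pd j (EE i)) x| * ‖x‖ ^ 4 ≤ C)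

/-- [RFfar] -/
def S_RFfar : Prop := ∀ (n : ℕ) (a : Fin n → ℂ) (c : Fin n → ℝ), ∑ k, c k = 0 →
  ∃ C R : ℝ, 0 < R ∧ ∀ y : E3, 0 < y 0 → R ≤ ‖y‖ → ∀ i, |RF a c i y| * ‖y‖ ^ 3 ≤ C ∧
    ∀ j, |pd j (RF a c i) y| * ‖y‖ ^ 4 ≤ C

/-- [RFsw] -/
def S_RFsw : Prop := ∀ (n : ℕ) (a : Fin n → ℂ) (c : Fin n → ℝ), SW (RF a c) half

/-- [RFnic] -/
def S_RFnic : Prop := ∀ (n : ℕ) (a : Fin n → ℂ) (c : Fin n → ℝ), ∑ k, c k = 0 →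
  ∀ τ : ℝ, 0 < τ → ∃ b : ℂ → ℝ, Nic (fun i x => RF a c i (sft τ x)) {x | -τ < x 0} b

/-- the boundary values of the field of the charges `c k` at `a k` -/
noncomputable def bf {n : ℕ} (a : Fin n → ℂ) (c : Fin n → ℝ) (z : ℂ) (i : Fin 3) : ℝ :=
  ∑ k, c k * Kv (z - a k) i

/-- [RJen] -/
def S_RJen : Prop := ∀ (p : ℝ) (M : J8 → ℝ) (Y : Fin 3 → J8 → ℝ), 0 < p → p < 1 / 2 →
  FCert p M Y → ∀ (n : ℕ) (a : Fin n → ℂ) (c : Fin n → ℝ), ∑ k, c k = 0 →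
  ∀ e : Fin 3 → ℝ, e ≠ 0 →
  Integrable (fun z : ℂ => gb M Y (fun i => bf a c z i + e i) - gb M Y e) ∧
  0 ≤ ∫ z : ℂ, (gb M Y (fun i => bf a c z i + e i) - gb M Y e)

/-- [RMom] the total charge of a function in `L^p` vanishes -/
def S_RMom : Prop := ∀ (n : ℕ) (a : Fin n → ℂ) (c : Fin n → ℝ) (p : ℝ), 0 < p → p < 1 / 2 →
  ∫⁻ z : ℂ, ‖∑ k, (c k : ℂ) * ((z - a k) / (‖z - a k‖ : ℂ) ^ 3)‖ₑ ^ p < ⊤ → ∑ k, c k = 0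

/-- the real span of the functions `z ↦ (z-a)/|z-a|^3` -/
noncomputable def spanR : Submodule ℝ (ℂ → ℂ) :=
  Submodule.span ℝ (Set.range fun a : ℂ => fun z : ℂ => (z - a) / (‖z - a‖ : ℂ) ^ 3)

/-- [RNot] the real span is not dense -/
def S_RNot : Prop := ∀ (p : ℝ) (M : J8 → ℝ) (Y : Fin 3 → J8 → ℝ), 0 < p → p < 1 / 2 →
  FCert p M Y → 0 < gb M Y ![0, 1, 0] → ∃ ε : ℝ, 0 < ε ∧ ∀ f ∈ spanR,
    ∫⁻ z : ℂ, ‖f z‖ₑ ^ p < ⊤ →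
    ENNReal.ofReal ε ≤ ∫⁻ z : ℂ, ‖(Metric.ball (0 : ℂ) 1).indicator (fun _ => (-1 : ℂ)) z - f z‖ₑ ^ p

end Pool.Agent.Work.MP_440970_an.FC
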