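import Pool.Agent.Work.MP_440970_an.FC.Stmts

/-!
# Item RFnic: the shifted fields of finitely many point charges are nice
-/

open MeasureTheory Set Filter Topology
open scoped ContDiff ENNReal

namespace Pool.Agent.Work.MP_440970_an.FC

open BH

namespace RFnicX

/-- the set of definition -/
def dom (τ : ℝ) : Set E3 := {x | -τ < x 0}

lemma isOpen_dom (τ : ℝ) : IsOpen (dom τ) :=
  isOpen_lt continuous_const (continuous_apply 0)

lemma sft_zero (τ : ℝ) (x : E3) : sft τ x 0 = x 0 + τ := by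
  simp [sft, e0]

lemma sft_mem (τ : ℝ) {x : E3} (hx : x ∈ dom τ) : sft τ x ∈ half := by
  show 0 < sft τ x 0
  rw [sft_zero]
  have : -τ < x 0 := hx
  linarith

lemma contDiff_sft (τ : ℝ) : ContDiff ℝ ∞ (sft τ) := by
  unfold sft
  fun_prop

/-- translation of Stein-Weiss systems -/
lemma sw_sft {G : Fin 3 → E3 → ℝ} (h : SW G half) (τ : ℝ) :
    SW (fun i x => G i (sft τ x)) (dom τ) where
  op := isOpen_dom τ
  smooth := fun i => (h.smooth i).comp (contDiff_sft τ).contDiffOn fun x hx => sft_mem τ hx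
  curl := fun x hx i j => by
    rw [pd_sft, pd_sft]
    exact h.curl _ (sft_mem τ hx) i j
  div := fun x hx => by
    simp only [pd_sft]
    exact h.div _ (sft_mem τ hx)

/-- the jet is continuous -/
lemma cont_jet {F : Fin 3 → E3 → ℝ} {U : Set E3} (h : SW F U) : ContinuousOn (jet F) U := by
  have h0 : ∀ i, ContinuousOn (F i) U := fun i => (h.smooth i).continuousOn
  have h1 : ∀ j i, ContinuousOn (pd j (F i)) U := fun j i =>
    (pd_contDiffOn (m := 1) j h.op (h.smooth i) (by norm_cast)).continuousOn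
  have hx : ContinuousOn (fun x : E3 => x 0) U := (continuous_apply 0).continuousOn
  rw [continuousOn_pi]
  intro k
  fin_cases k
  · exact h0 0
  · exact h0 1
  · exact h0 2
  · exact hx.mul (h1 0 1)
  · exact hx.mul (h1 0 2)
  · exact hx.mul (h1 1 1)
  · exact hx.mul (h1 1 2)
  · exact hx.mul (h1 2 2)

/-- bound of the norm of the jet -/
lemma jet_le {F : Fin 3 → E3 → ℝ} {x : E3} {c : ℝ} (hc : 0 ≤ c) (h0 : ∀ i, |F i x| ≤ c)
    (h1 : ∀ i j, |x 0 * pd j (F i) x| ≤ c) : ‖jet F x‖ ≤ c := by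
  rw [pi_norm_le_iff_of_nonneg hc]
  intro k
  rw [Real.norm_eq_abs]
  fin_cases k
  · exact h0 0
  · exact h0 1
  · exact h0 2
  · exact h1 1 0
  · exact h1 2 0
  · exact h1 1 1
  · exact h1 2 1
  · exact h1 2 2

lemma norm_le_sft {τ : ℝ} (hτ : 0 < τ) {x : E3} (hx : 0 ≤ x 0) : ‖x‖ ≤ ‖sft τ x‖ := by
  rw [pi_norm_le_iff_of_nonneg (norm_nonneg _)]
  intro k
  refine le_trans ?_ (norm_le_pi_norm (sft τ x) k)
  rw [Real.norm_eq_abs, Real.norm_eq_abs]
  by_cases hk : k = 0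
  · subst hk
    rw [sft_zero, abs_of_nonneg hx, abs_of_nonneg (by linarith)]
    linarith
  · have : sft τ x k = x k := by simp [sft, e0, hk]
    rw [this]

/-- decay of the jet -/
lemma decay (h1 : S_RFsw) (h2 : S_RFfar) {n : ℕ} (a : Fin n → ℂ) (c : Fin n → ℝ)
    (hc : ∑ k, c k = 0) {τ : ℝ} (hτ : 0 < τ) : ∃ C : ℝ, 0 ≤ C ∧ ∀ x : E3, 0 ≤ x 0 →
      ‖jet (fun i x => RF a c i (sft τ x)) x‖ * (1 + ‖x‖) ^ 3 ≤ C := by
  obtain ⟨C, R, hR, hb⟩ := h2 n a c hc
  have hsw := sw_sft (h1 n a c) τ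
  set F : Fin 3 → E3 → ℝ := fun i x => RF a c i (sft τ x) with hF
  set R' := R + 1 with hR'
  -- the compact part
  have hK : IsCompact ({x : E3 | 0 ≤ x 0} ∩ Metric.closedBall 0 R') :=
    (isCompact_closedBall (0 : E3) R').inter_left
      (isClosed_le continuous_const (continuous_apply 0))
  have hKc : ContinuousOn (fun x : E3 => ‖jet F x‖ * (1 + ‖x‖) ^ 3)
      ({x : E3 | 0 ≤ x 0} ∩ Metric.closedBall 0 R') := by
    apply ContinuousOn.mul
    · apply ContinuousOn.norm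
      apply (cont_jet hsw).mono
      rintro x ⟨hx, -⟩
      show -τ < x 0
      have : 0 ≤ x 0 := hx
      linarith
    · fun_prop
  obtain ⟨C1, hC1⟩ := hK.exists_bound_of_continuousOn hKc
  refine ⟨max (max C1 (8 * C)) 0, le_max_right _ _, ?_⟩
  intro x hx
  rcases le_or_gt ‖x‖ R' with hle | hgt
  · have h3 := hC1 x ⟨hx, by simpa using hle⟩
    rw [Real.norm_eq_abs] at h3
    exact (le_abs_self _).trans (h3.trans ((le_max_left _ _).trans (le_max_left _ _)))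
  · set y := sft τ x with hy
    have hxy : ‖x‖ ≤ ‖y‖ := norm_le_sft hτ hx
    have hy0 : 0 < y 0 := by rw [hy, sft_zero]; linarith
    have hyR : R ≤ ‖y‖ := by linarith
    have hy1 : 1 ≤ ‖y‖ := by linarith
    have hb' := hb y hy0 hyR
    have hypos : 0 < ‖y‖ := by linarith
    have hxpos : 0 < (1 + ‖x‖) ^ 3 := by positivity
    have h8 : (1 + ‖x‖) ^ 3 ≤ 8 * ‖y‖ ^ 3 := by
      calc (1 + ‖x‖) ^ 3 ≤ (2 * ‖y‖) ^ 3 := by
            apply pow_le_pow_left₀ (by positivity)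
            linarith
        _ = 8 * ‖y‖ ^ 3 := by ring
    have hC0 : 0 ≤ C := le_trans (by positivity) (hb' 0).1
    have key : ‖jet F x‖ ≤ C / ‖y‖ ^ 3 := by
      apply jet_le (by positivity)
      · intro i
        rw [le_div_iff₀ (by positivity)]
        exact (hb' i).1
      · intro i j
        rw [le_div_iff₀ (by positivity), abs_mul]
        have e1 : pd j (F i) x = pd j (RF a c i) y := pd_sft j τ
        rw [e1]
        have e2 : |x 0| ≤ ‖y‖ := by
          have := norm_le_pi_norm x 0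
          rw [Real.norm_eq_abs] at this
          linarith
        calc |x 0| * |pd j (RF a c i) y| * ‖y‖ ^ 3
            ≤ ‖y‖ * |pd j (RF a c i) y| * ‖y‖ ^ 3 := by
              apply mul_le_mul_of_nonneg_right _ (by positivity)
              exact mul_le_mul_of_nonneg_right e2 (abs_nonneg _)
          _ = |pd j (RF a c i) y| * ‖y‖ ^ 4 := by ring
          _ ≤ C := (hb' i).2 j
    refine le_trans ?_ ((le_max_right C1 _).trans (le_max_left _ _))
    calc ‖jet F x‖ * (1 + ‖x‖) ^ 3 ≤ C / ‖y‖ ^ 3 * (8 * ‖y‖ ^ 3) :=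
          mul_le_mul key h8 hxpos.le (by positivity)
      _ = 8 * C := by field_simp

lemma norm_cp_ge (t : ℝ) (ht : 0 ≤ t) (z : ℂ) : t ≤ ‖cp t z‖ ∧ ‖z‖ / 2 ≤ ‖cp t z‖ := by
  have h0 := norm_le_pi_norm (cp t z) 0
  have h1 := norm_le_pi_norm (cp t z) 1
  have h2 := norm_le_pi_norm (cp t z) 2
  simp only [cp, Matrix.cons_val_zero, Matrix.cons_val_one, Matrix.cons_val,
    Real.norm_eq_abs] at h0 h1 h2
  have h3 := Complex.norm_le_abs_re_add_abs_im z
  refine ⟨(le_abs_self t).trans h0, ?_⟩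
  have h1' : |z.re| ≤ ‖cp t z‖ := h1
  have h2' : |z.im| ≤ ‖cp t z‖ := h2
  linarith

/-- the pointwise bound on horizontal planes -/
lemma plane {F : Fin 3 → E3 → ℝ} {C : ℝ} (hC : 0 ≤ C)
    (h : ∀ x : E3, 0 ≤ x 0 → ‖jet F x‖ * (1 + ‖x‖) ^ 3 ≤ C) (t : ℝ) (ht : 0 ≤ t) (z : ℂ) :
    ‖jet F (cp t z)‖ ≤ 8 * C * (1 + ‖z‖) ^ (-(5/2) : ℝ) * (1 + t) ^ (-(1/2) : ℝ) := by
  have h0 := h (cp t z) (by simpa [cp] using ht)
  obtain ⟨h1, h2⟩ := norm_cp_ge t ht z
  set N := ‖cp t z‖ with hN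
  have hNpos : 0 < 1 + N := by positivity
  have hz : 0 ≤ ‖z‖ := norm_nonneg z
  have e1 : (1 + N) ^ 3 = (1 + N) ^ ((5/2) : ℝ) * (1 + N) ^ ((1/2) : ℝ) := by
    rw [← Real.rpow_add hNpos, ← Real.rpow_natCast]
    norm_num
  have e2 : (1 + t) ^ ((1/2) : ℝ) ≤ (1 + N) ^ ((1/2) : ℝ) :=
    Real.rpow_le_rpow (by linarith) (by linarith) (by norm_num)
  have e3 : (1 + ‖z‖) ^ ((5/2) : ℝ) ≤ 8 * (1 + N) ^ ((5/2) : ℝ) := by
    calc (1 + ‖z‖) ^ ((5/2) : ℝ) ≤ (2 * (1 + N)) ^ ((5/2) : ℝ) :=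
          Real.rpow_le_rpow (by linarith) (by linarith) (by norm_num)
      _ = 2 ^ ((5/2) : ℝ) * (1 + N) ^ ((5/2) : ℝ) :=
          Real.mul_rpow (by norm_num) hNpos.le
      _ ≤ 8 * (1 + N) ^ ((5/2) : ℝ) := by
          apply mul_le_mul_of_nonneg_right _ (by positivity)
          calc (2:ℝ) ^ ((5/2) : ℝ) ≤ (2:ℝ) ^ (3 : ℝ) :=
                Real.rpow_le_rpow_of_exponent_le (by norm_num) (by norm_num)
            _ = 8 := by norm_num
  have hzp : 0 < (1 + ‖z‖) ^ ((5/2) : ℝ) := by positivity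
  have htp : 0 < (1 + t) ^ ((1/2) : ℝ) := by positivity
  rw [Real.rpow_neg (by linarith), Real.rpow_neg (by linarith), ← div_eq_mul_inv,
    ← div_eq_mul_inv, le_div_iff₀ htp, le_div_iff₀ hzp]
  calc ‖jet F (cp t z)‖ * (1 + t) ^ ((1/2) : ℝ) * (1 + ‖z‖) ^ ((5/2) : ℝ)
      ≤ ‖jet F (cp t z)‖ * (1 + N) ^ ((1/2) : ℝ) * (8 * (1 + N) ^ ((5/2) : ℝ)) := by
        apply mul_le_mul _ e3 hzp.le (by positivity)
        exact mul_le_mul_of_nonneg_left e2 (norm_nonneg _)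
    _ = 8 * (‖jet F (cp t z)‖ * (1 + N) ^ 3) := by rw [e1]; ring
    _ ≤ 8 * C := by linarith

lemma tend (A : ℝ) : Tendsto (fun t : ℝ => A * (1 + t) ^ (-(1/2) : ℝ)) atTop (𝓝 0) := by
  have h1 : Tendsto (fun t : ℝ => 1 + t) atTop atTop := tendsto_atTop_add_const_left _ 1 tendsto_id
  have h2 := ((tendsto_rpow_neg_atTop (y := 1/2) (by norm_num)).comp h1).const_mul A
  rw [mul_zero] at h2
  exact h2

end RFnicX

open RFnicX in
theorem pr_RFnic (h1 : S_RFsw) (h2 : S_RFfar) : S_RFnic := by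
  intro n a c hc τ hτ
  obtain ⟨C, hC, hb⟩ := decay h1 h2 a c hc hτ
  have hint : Integrable (fun z : ℂ => 8 * C * (1 + ‖z‖) ^ (-(5/2) : ℝ)) := by
    apply Integrable.const_mul
    apply integrable_one_add_norm
    rw [Complex.finrank_real_complex]
    norm_num
  refine ⟨fun z => 8 * C * (1 + ‖z‖) ^ (-(5/2) : ℝ), sw_sft (h1 n a c) τ, ?_, hint, ?_, ?_⟩
  · intro x hx
    show -τ < x 0
    linarith
  · intro t z ht
    refine (plane hC hb t ht z).trans ?_
    have h3 : (1 + t) ^ (-(1/2) : ℝ) ≤ 1 :=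
      Real.rpow_le_one_of_one_le_of_nonpos (by linarith) (by norm_num)
    have h4 : 0 ≤ 8 * C * (1 + ‖z‖) ^ (-(5/2) : ℝ) := by positivity
    calc 8 * C * (1 + ‖z‖) ^ (-(5/2) : ℝ) * (1 + t) ^ (-(1/2) : ℝ)
        ≤ 8 * C * (1 + ‖z‖) ^ (-(5/2) : ℝ) * 1 := mul_le_mul_of_nonneg_left h3 h4
      _ = _ := mul_one _
  · apply squeeze_zero' (g := fun t : ℝ =>
      (∫ z : ℂ, 8 * C * (1 + ‖z‖) ^ (-(5/2) : ℝ)) * (1 + t) ^ (-(1/2) : ℝ))
    · exact Eventually.of_forall fun t => integral_nonneg fun z => norm_nonneg _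
    · filter_upwards [eventually_ge_atTop 0] with t ht
      rw [← integral_mul_const]
      apply integral_mono_of_nonneg
      · exact Eventually.of_forall fun z => norm_nonneg _
      · exact hint.mul_const _
      · exact Eventually.of_forall fun z => plane hC hb t ht z
    · exact tend _

end Pool.Agent.Work.MP_440970_an.FC
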