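import Pool.Agent.Work.MP_440970_an.FC.Stmts

/-!
# [RJen] the inequality for the fields of real point charges
-/

open MeasureTheory Set Filter Topology
open scoped ContDiff ENNReal

namespace Pool.Agent.Work.MP_440970_an.FC

open BH

namespace RJenX

theorem EE_le (i : Fin 3) (y : E3) : |EE i y| ≤ (y 0 ^ 2 + y 1 ^ 2 + y 2 ^ 2)⁻¹ := by
  unfold EE
  have hs : 0 ≤ y 0 ^ 2 + y 1 ^ 2 + y 2 ^ 2 := by positivity
  rcases eq_or_lt_of_le hs with h0 | h0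
  · rw [← h0]
    simp
  · have hr : 0 < √(y 0 ^ 2 + y 1 ^ 2 + y 2 ^ 2) := Real.sqrt_pos.2 h0
    have hi : |y i| ≤ √(y 0 ^ 2 + y 1 ^ 2 + y 2 ^ 2) := by
      apply Real.abs_le_sqrt
      fin_cases i
      · show y 0 ^ 2 ≤ _
        nlinarith [sq_nonneg (y 1), sq_nonneg (y 2)]
      · show y 1 ^ 2 ≤ _
        nlinarith [sq_nonneg (y 0), sq_nonneg (y 2)]
      · show y 2 ^ 2 ≤ _
        nlinarith [sq_nonneg (y 1), sq_nonneg (y 0)]
    rw [abs_div, abs_of_pos (pow_pos hr 3), div_le_iff₀ (pow_pos hr 3)]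
    have h2 : √(y 0 ^ 2 + y 1 ^ 2 + y 2 ^ 2) ^ 2 = y 0 ^ 2 + y 1 ^ 2 + y 2 ^ 2 :=
      Real.sq_sqrt hs
    have h3 : (y 0 ^ 2 + y 1 ^ 2 + y 2 ^ 2)⁻¹ * √(y 0 ^ 2 + y 1 ^ 2 + y 2 ^ 2) ^ 3 =
        √(y 0 ^ 2 + y 1 ^ 2 + y 2 ^ 2) := by
      calc (y 0 ^ 2 + y 1 ^ 2 + y 2 ^ 2)⁻¹ * √(y 0 ^ 2 + y 1 ^ 2 + y 2 ^ 2) ^ 3
          = (y 0 ^ 2 + y 1 ^ 2 + y 2 ^ 2)⁻¹ * (√(y 0 ^ 2 + y 1 ^ 2 + y 2 ^ 2) ^ 2) *
            √(y 0 ^ 2 + y 1 ^ 2 + y 2 ^ 2) := by ring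
        _ = _ := by rw [h2, inv_mul_cancel₀ h0.ne', one_mul]
    rw [h3]
    exact hi

theorem EE_cont (i : Fin 3) {y : E3} (h : 0 < y 0 ^ 2 + y 1 ^ 2 + y 2 ^ 2) :
    ContinuousAt (EE i) y := by
  unfold EE
  have h1 : √(y 0 ^ 2 + y 1 ^ 2 + y 2 ^ 2) ^ 3 ≠ 0 := (pow_pos (Real.sqrt_pos.2 h) 3).ne'
  refine ContinuousAt.div (continuous_apply i).continuousAt ?_ h1
  have h2 : Continuous fun x : E3 => √(x 0 ^ 2 + x 1 ^ 2 + x 2 ^ 2) ^ 3 := by fun_prop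
  exact h2.continuousAt

theorem EE_meas (i : Fin 3) : Measurable (EE i) := by
  unfold EE
  fun_prop

theorem hz_cp (a z : ℂ) (τ : ℝ) : hz a (cp τ z) = ![τ, (z - a).re, (z - a).im] := by
  funext i
  fin_cases i
  · show τ - 0 = τ
    ring
  · rfl
  · rfl

theorem sft_cp (τ : ℝ) (z : ℂ) : sft τ (cp 0 z) = cp τ z := by
  funext i
  fin_cases i
  · show 0 + τ * e0 0 = τ
    simp [e0]
  · show z.re + τ * e0 1 = z.re
    simp [e0]
  · show z.im + τ * e0 2 = z.im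
    simp [e0]

/-- the field at the point at height `τ` above `z` -/
noncomputable def u {n : ℕ} (a : Fin n → ℂ) (c : Fin n → ℝ) (τ : ℝ) (z : ℂ) (i : Fin 3) : ℝ :=
  RF a c i (cp τ z)

theorem u_eq {n : ℕ} (a : Fin n → ℂ) (c : Fin n → ℝ) (τ : ℝ) (z : ℂ) (i : Fin 3) :
    u a c τ z i = ∑ k, c k * EE i ![τ, (z - a k).re, (z - a k).im] := by
  unfold u RF
  refine Finset.sum_congr rfl fun k _ => ?_
  rw [hz_cp]

theorem arg_meas (a : ℂ) (τ : ℝ) : Measurable fun z : ℂ => (![τ, (z - a).re, (z - a).im] : E3) := by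
  refine measurable_pi_lambda _ fun i => ?_
  fin_cases i
  · exact measurable_const
  · exact Complex.measurable_re.comp (measurable_id.sub_const a)
  · exact Complex.measurable_im.comp (measurable_id.sub_const a)

theorem u_meas {n : ℕ} (a : Fin n → ℂ) (c : Fin n → ℝ) (τ : ℝ) : Measurable (u a c τ) := by
  refine measurable_pi_lambda _ fun i => ?_
  simp only [u_eq]
  refine Finset.measurable_fun_sum _ fun k _ => Measurable.const_mul ?_ _
  exact (EE_meas i).comp (arg_meas (a k) τ)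

theorem sq_eq (τ : ℝ) (w : ℂ) : (![τ, w.re, w.im] : E3) 0 ^ 2 + (![τ, w.re, w.im] : E3) 1 ^ 2 +
    (![τ, w.re, w.im] : E3) 2 ^ 2 = τ ^ 2 + ‖w‖ ^ 2 := by
  show τ ^ 2 + w.re ^ 2 + w.im ^ 2 = _
  rw [Complex.sq_norm, Complex.normSq_apply]
  ring

theorem Kv_eq (w : ℂ) (i : Fin 3) : EE i ![0, w.re, w.im] = Kv w i := by
  unfold EE
  rw [sq_eq]
  have h : √((0 : ℝ) ^ 2 + ‖w‖ ^ 2) = ‖w‖ := by
    rw [zero_pow two_ne_zero, zero_add, Real.sqrt_sq (norm_nonneg _)]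
  rw [h]
  fin_cases i
  · show 0 / ‖w‖ ^ 3 = 0
    rw [zero_div]
  · rfl
  · rfl

theorem u_tendsto {n : ℕ} (a : Fin n → ℂ) (c : Fin n → ℝ) {τ : ℕ → ℝ}
    (hτ : Tendsto τ atTop (𝓝 0)) {z : ℂ} (hz' : ∀ k, z ≠ a k) :
    Tendsto (fun m => u a c (τ m) z) atTop (𝓝 (bf a c z)) := by
  refine tendsto_pi_nhds.2 fun i => ?_
  simp only [u_eq, bf]
  refine tendsto_finsetSum _ fun k _ => Tendsto.const_mul _ ?_
  rw [← Kv_eq]
  have hpos : 0 < (![0, (z - a k).re, (z - a k).im] : E3) 0 ^ 2 +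
      (![0, (z - a k).re, (z - a k).im] : E3) 1 ^ 2 +
      (![0, (z - a k).re, (z - a k).im] : E3) 2 ^ 2 := by
    rw [sq_eq]
    have : 0 < ‖z - a k‖ := norm_pos_iff.2 (sub_ne_zero.2 (hz' k))
    positivity
  refine (EE_cont i hpos).tendsto.comp ?_
  refine tendsto_pi_nhds.2 fun j => ?_
  fin_cases j
  · exact hτ
  · exact tendsto_const_nhds
  · exact tendsto_const_nhds

theorem u_near {n : ℕ} (a : Fin n → ℂ) (c : Fin n → ℝ) (τ : ℝ) {z : ℂ} (hz' : ∀ k, z ≠ a k)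
    (i : Fin 3) : |u a c τ z i| ≤ ∑ k, |c k| * (‖z - a k‖ ^ 2)⁻¹ := by
  rw [u_eq]
  refine (Finset.abs_sum_le_sum_abs _ _).trans (Finset.sum_le_sum fun k _ => ?_)
  rw [abs_mul]
  refine mul_le_mul_of_nonneg_left ((EE_le i _).trans ?_) (abs_nonneg _)
  rw [sq_eq]
  have : 0 < ‖z - a k‖ := norm_pos_iff.2 (sub_ne_zero.2 (hz' k))
  exact inv_anti₀ (by positivity) (by nlinarith [sq_nonneg τ])

theorem sum_rpow {ι : Type*} (s : Finset ι) (f : ι → ℝ) (hf : ∀ k, 0 ≤ f k) {p : ℝ}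
    (hp : 0 < p) (hp1 : p ≤ 1) : (∑ k ∈ s, f k) ^ p ≤ ∑ k ∈ s, f k ^ p := by
  classical
  induction s using Finset.induction_on with
  | empty => simp [Real.zero_rpow hp.ne']
  | insert k s hk ih =>
    rw [Finset.sum_insert hk, Finset.sum_insert hk]
    refine (Real.rpow_add_le_add_rpow (hf k)
      (Finset.sum_nonneg fun j _ => hf j) hp.le hp1).trans ?_
    exact add_le_add le_rfl ih

theorem pow_int {p : ℝ} (hp1 : p < 1 / 2) (b : ℂ) {K : Set ℂ}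
    (hK : IsCompact K) : IntegrableOn (fun z : ℂ => ‖z - b‖ ^ (-(2 * p))) K := by
  have hloc : LocallyIntegrable (fun z : ℂ => ‖z‖ ^ (-(2 * p))) volume := by
    refine locallyIntegrable_of_norm_le_rpow (C := 1) (α := 2 * p) ?_ ?_ ?_ ?_
    · simp
    · simp
      linarith
    · refine Filter.Eventually.of_forall fun z => ?_
      rw [one_mul, Real.norm_eq_abs, abs_of_nonneg (Real.rpow_nonneg (norm_nonneg _) _)]
    · exact (measurable_norm.pow_const _).aestronglyMeasurable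
  have hc : IsCompact ((fun z : ℂ => z - b) '' K) :=
    hK.image (continuous_id.sub continuous_const)
  have h1 := hloc.integrableOn_isCompact hc
  have hmp : MeasurePreserving (fun z : ℂ => z - b) volume volume :=
    measurePreserving_sub_right volume b
  have hme : MeasurableEmbedding (fun z : ℂ => z - b) :=
    (MeasurableEquiv.subRight b).measurableEmbedding
  have h2 := (hmp.integrableOn_comp_preimage hme).2 h1
  exact h2.mono_set (subset_preimage_image _ _)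

theorem ae_ne {n : ℕ} (a : Fin n → ℂ) : ∀ᵐ z : ℂ, ∀ k, z ≠ a k :=
  ae_all_iff.2 fun k => compl_mem_ae_iff.2 (measure_singleton (a k))

/-- the dominating function -/
noncomputable def dom {n : ℕ} (a : Fin n → ℂ) (c : Fin n → ℝ) (p K C R : ℝ) (z : ℂ) : ℝ :=
  (Metric.closedBall (0 : ℂ) R).indicator
    (fun z => K * ∑ k, |c k| ^ p * ‖z - a k‖ ^ (-(2 * p))) z +
    K * (64 * |C|) * (1 + ‖z‖) ^ (-(3 : ℝ))

theorem dom_int {n : ℕ} (a : Fin n → ℂ) (c : Fin n → ℝ) {p : ℝ} (hp1 : p < 1 / 2) (K C R : ℝ) :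
    Integrable (dom a c p K C R) := by
  unfold dom
  refine Integrable.add ?_ ?_
  · refine IntegrableOn.integrable_indicator ?_ Metric.isClosed_closedBall.measurableSet
    refine Integrable.const_mul ?_ _
    exact integrable_finsetSum _ fun k _ =>
      (pow_int hp1 (a k) (isCompact_closedBall _ _)).const_mul _
  · refine (integrable_one_add_norm ?_).const_mul _
    rw [Complex.finrank_real_complex]
    norm_num

theorem jt_norm {v : Fin 3 → ℝ} {B : ℝ} (hB : 0 ≤ B) (h : ∀ i, |v i| ≤ B) : ‖jt v‖ ≤ B := by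
  refine (pi_norm_le_iff_of_nonneg hB).2 fun k => ?_
  fin_cases k
  · exact h 0
  · exact h 1
  · exact h 2
  all_goals
    show ‖(0 : ℝ)‖ ≤ B
    rw [norm_zero]
    exact hB

theorem jt_add (v e : Fin 3 → ℝ) : jt (fun i => v i + e i) = jt v + jt e := by
  funext k
  fin_cases k
  · rfl
  · rfl
  · rfl
  all_goals
    show (0 : ℝ) = 0 + 0
    ring

theorem jt_cont : Continuous jt := by
  refine continuous_pi fun k => ?_
  fin_cases k
  · exact continuous_apply 0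
  · exact continuous_apply 1
  · exact continuous_apply 2
  all_goals exact continuous_const

theorem gb_cont {M : J8 → ℝ} {Y : Fin 3 → J8 → ℝ} (hM : Continuous M) (hY : ∀ i, Continuous (Y i)) :
    Continuous (gb M Y) := by
  unfold gb
  exact (hM.comp jt_cont).sub ((hY 0).comp jt_cont)

theorem gb_le {M : J8 → ℝ} {Y : Fin 3 → J8 → ℝ} {p C1 C2 : ℝ} {e : Fin 3 → ℝ}
    (hM : LipAt p M e C1) (hY : LipAt p (Y 0) e C2) (v : Fin 3 → ℝ) :
    |gb M Y (fun i => v i + e i) - gb M Y e| ≤ (C1 + C2) * ‖jt v‖ ∧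
    |gb M Y (fun i => v i + e i) - gb M Y e| ≤ (C1 + C2) * ‖jt v‖ ^ p := by
  have h1 := hM (jt v)
  have h2 := hY (jt v)
  have h3 : |gb M Y (fun i => v i + e i) - gb M Y e| ≤
      |M (jt v + jt e) - M (jt e)| + |Y 0 (jt v + jt e) - Y 0 (jt e)| := by
    unfold gb
    rw [jt_add]
    have h4 : M (jt v + jt e) - Y 0 (jt v + jt e) - (M (jt e) - Y 0 (jt e)) =
        (M (jt v + jt e) - M (jt e)) - (Y 0 (jt v + jt e) - Y 0 (jt e)) := by ring
    rw [h4]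
    exact abs_sub _ _
  constructor
  · rw [add_mul]
    exact h3.trans (add_le_add h1.1 h2.1)
  · rw [add_mul]
    exact h3.trans (add_le_add h1.2 h2.2)

theorem norm_cp (τ : ℝ) (z : ℂ) : ‖z‖ / 2 ≤ ‖cp τ z‖ := by
  have h1 : |z.re| ≤ ‖cp τ z‖ := norm_le_pi_norm (cp τ z) 1
  have h2 : |z.im| ≤ ‖cp τ z‖ := norm_le_pi_norm (cp τ z) 2
  have h3 := Complex.norm_le_abs_re_add_abs_im z
  linarith

theorem u_far {n : ℕ} (a : Fin n → ℂ) (c : Fin n → ℝ) {C R : ℝ}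
    (h : ∀ y : E3, 0 < y 0 → R ≤ ‖y‖ → ∀ i, |RF a c i y| * ‖y‖ ^ 3 ≤ C) {τ : ℝ} (hτ : 0 < τ)
    {z : ℂ} (hz1 : 1 ≤ ‖z‖) (hz2 : 2 * R ≤ ‖z‖) (i : Fin 3) :
    |u a c τ z i| ≤ 64 * |C| * (1 + ‖z‖) ^ (-(3 : ℝ)) := by
  have h1 := norm_cp τ z
  have h2 := h (cp τ z) hτ (by linarith) i
  have h3 : (1 + ‖z‖) / 4 ≤ ‖cp τ z‖ := by linarith
  have h4 : ((1 + ‖z‖) / 4) ^ 3 ≤ ‖cp τ z‖ ^ 3 := pow_le_pow_left₀ (by positivity) h3 3
  have h5 : (1 + ‖z‖) ^ (-(3 : ℝ)) = ((1 + ‖z‖) ^ 3)⁻¹ := by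
    rw [Real.rpow_neg (by positivity)]
    congr 1
    exact_mod_cast Real.rpow_natCast (1 + ‖z‖) 3
  rw [h5, ← div_eq_mul_inv, le_div_iff₀ (by positivity)]
  have h6 : |u a c τ z i| * ((1 + ‖z‖) / 4) ^ 3 ≤ |C| :=
    (mul_le_mul_of_nonneg_left h4 (abs_nonneg _)).trans (h2.trans (le_abs_self C))
  have h7 : |u a c τ z i| * (1 + ‖z‖) ^ 3 = 64 * (|u a c τ z i| * ((1 + ‖z‖) / 4) ^ 3) := by ring
  rw [h7]
  linarith

theorem le_dom {M : J8 → ℝ} {Y : Fin 3 → J8 → ℝ} {p C1 C2 : ℝ} {e : Fin 3 → ℝ} (hp : 0 < p)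
    (hp1 : p < 1 / 2) (hC1 : 0 ≤ C1) (hC2 : 0 ≤ C2)
    (hM : LipAt p M e C1) (hY : LipAt p (Y 0) e C2) {n : ℕ} (a : Fin n → ℂ) (c : Fin n → ℝ)
    {C R : ℝ}
    (h : ∀ y : E3, 0 < y 0 → R ≤ ‖y‖ → ∀ i, |RF a c i y| * ‖y‖ ^ 3 ≤ C) {τ : ℝ} (hτ : 0 < τ)
    {z : ℂ} (hz' : ∀ k, z ≠ a k) :
    ‖gb M Y (fun i => u a c τ z i + e i) - gb M Y e‖ ≤
      dom a c p (C1 + C2) C (max 1 (2 * R)) z := by
  obtain ⟨g1, g2⟩ := gb_le hM hY (u a c τ z)
  rw [Real.norm_eq_abs]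
  unfold dom
  by_cases hz1 : ‖z‖ ≤ max 1 (2 * R)
  · have hmem : z ∈ Metric.closedBall (0 : ℂ) (max 1 (2 * R)) := by
      rw [mem_closedBall_zero_iff]
      exact hz1
    rw [indicator_of_mem hmem]
    refine g2.trans ?_
    have hB : 0 ≤ ∑ k, |c k| * (‖z - a k‖ ^ 2)⁻¹ := by positivity
    have h1 : ‖jt (u a c τ z)‖ ≤ ∑ k, |c k| * (‖z - a k‖ ^ 2)⁻¹ :=
      jt_norm hB fun i => u_near a c τ hz' i
    have h2 : ‖jt (u a c τ z)‖ ^ p ≤ ∑ k, |c k| ^ p * ‖z - a k‖ ^ (-(2 * p)) := by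
      refine (Real.rpow_le_rpow (norm_nonneg _) h1 hp.le).trans ?_
      refine (sum_rpow Finset.univ _ (fun k => by positivity) hp (by linarith)).trans_eq ?_
      refine Finset.sum_congr rfl fun k _ => ?_
      rw [Real.mul_rpow (by positivity) (by positivity)]
      congr 1
      rw [Real.inv_rpow (by positivity), ← Real.rpow_natCast, ← Real.rpow_mul (norm_nonneg _),
        Real.rpow_neg (norm_nonneg _)]
      push_cast
      rfl
    have h3 : 0 ≤ (C1 + C2) * (64 * |C|) * (1 + ‖z‖) ^ (-(3 : ℝ)) := by positivity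
    have h4 := mul_le_mul_of_nonneg_left h2 (add_nonneg hC1 hC2)
    linarith
  · have hmem : z ∉ Metric.closedBall (0 : ℂ) (max 1 (2 * R)) := by
      rw [mem_closedBall_zero_iff]
      exact hz1
    rw [indicator_of_notMem hmem, zero_add]
    rw [not_le] at hz1
    refine g1.trans ?_
    have h1 : ‖jt (u a c τ z)‖ ≤ 64 * |C| * (1 + ‖z‖) ^ (-(3 : ℝ)) :=
      jt_norm (by positivity) fun i => u_far a c h hτ ((le_max_left _ _).trans hz1.le)
        ((le_max_right _ _).trans hz1.le) i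
    rw [mul_assoc (C1 + C2)]
    exact mul_le_mul_of_nonneg_left h1 (add_nonneg hC1 hC2)

end RJenX

open RJenX in
theorem pr_RJen (h1 : S_RFnic) (h2 : S_RFfar) (_h3 : S_RFsw) (h4 : S_Nice) (h5 : S_Lip) :
    S_RJen := by
  intro p M Y hp hp1 hF n a c hc e he
  obtain ⟨C1, hC1, hM⟩ := h5 p M e hp (by linarith) he hF.cM (fun z hz => (hF.sM z hz).of_le
    (by norm_num)) hF.bM
  obtain ⟨C2, hC2, hY⟩ := h5 p (Y 0) e hp (by linarith) he (hF.cY 0) (hF.sY 0) (by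
    obtain ⟨C, hC⟩ := hF.bY
    exact ⟨C, hC 0⟩)
  obtain ⟨C, R, _, hR⟩ := h2 n a c hc
  obtain ⟨τ, hτ⟩ : ∃ τ : ℕ → ℝ, ∀ m, τ m = 1 / ((m : ℝ) + 1) := ⟨_, fun _ => rfl⟩
  have hτ0 : ∀ m, 0 < τ m := fun m => by
    rw [hτ]
    positivity
  have hτt : Tendsto τ atTop (𝓝 0) := by
    have : τ = fun m : ℕ => 1 / ((m : ℝ) + 1) := funext hτ
    rw [this]
    exact tendsto_one_div_add_atTop_nhds_zero_nat
  have hgc := gb_cont hF.cM hF.cY
  have hmeas : ∀ m, AEStronglyMeasurable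
      (fun z : ℂ => gb M Y (fun i => u a c (τ m) z i + e i) - gb M Y e) volume := by
    intro m
    refine Measurable.aestronglyMeasurable ?_
    refine Measurable.sub_const ?_ _
    refine hgc.measurable.comp ?_
    refine measurable_pi_lambda _ fun i => ?_
    exact ((measurable_pi_apply i).comp (u_meas a c (τ m))).add_const _
  have hbd : ∀ m, ∀ᵐ z : ℂ, ‖gb M Y (fun i => u a c (τ m) z i + e i) - gb M Y e‖ ≤
      dom a c p (C1 + C2) C (max 1 (2 * R)) z := by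
    intro m
    filter_upwards [ae_ne a] with z hz
    exact le_dom hp hp1 hC1 hC2 hM hY a c (fun y hy hy2 i => (hR y hy hy2 i).1) (hτ0 m) hz
  have hlim : ∀ᵐ z : ℂ, Tendsto (fun m => gb M Y (fun i => u a c (τ m) z i + e i) - gb M Y e)
      atTop (𝓝 (gb M Y (fun i => bf a c z i + e i) - gb M Y e)) := by
    filter_upwards [ae_ne a] with z hz
    refine Tendsto.sub_const ?_ _
    refine (hgc.tendsto _).comp ?_
    refine tendsto_pi_nhds.2 fun i => ?_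
    exact ((tendsto_pi_nhds.1 (u_tendsto a c hτt hz)) i).add_const _
  have hdom := dom_int a c hp1 (C1 + C2) C (max 1 (2 * R))
  refine ⟨⟨aestronglyMeasurable_of_tendsto_ae atTop hmeas hlim,
    hasFiniteIntegral_of_dominated_convergence hdom.2 hbd hlim⟩, ?_⟩
  refine ge_of_tendsto' (tendsto_integral_of_dominated_convergence _ hmeas hdom hbd hlim)
    fun m => ?_
  obtain ⟨b, hb⟩ := h1 n a c hc (τ m) (hτ0 m)
  have h := h4 p M Y hp (by linarith) hF _ _ b hb e he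
  simp only [sft_cp] at h
  exact h

end Pool.Agent.Work.MP_440970_an.FC
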