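import Pool.Agent.Work.MP_440970_an.FC.Stmts

open MeasureTheory Set Filter Topology
open scoped ContDiff ENNReal

namespace Pool.Agent.Work.MP_440970_an.FC

open BH

namespace SlabWX

theorem half_open : IsOpen half := isOpen_lt continuous_const (continuous_apply 0)

theorem jet_cont {F : Fin 3 → E3 → ℝ} (hF : SW F half) : ContinuousOn (jet F) half := by
  have hc : ∀ i, ContinuousOn (F i) half := fun i => (hF.smooth i).continuousOn
  have hp : ∀ i j, ContinuousOn (pd i (F j)) half := fun i j =>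
    (pd_contDiffOn (n := ∞) (m := 0) i half_open (hF.smooth j) (by simp)).continuousOn
  have h0 : ContinuousOn (fun x : E3 => x 0) half := (continuous_apply 0).continuousOn
  refine continuousOn_pi.mpr fun k => ?_
  fin_cases k
  · exact hc 0
  · exact hc 1
  · exact hc 2
  · exact h0.mul (hp 0 1)
  · exact h0.mul (hp 0 2)
  · exact h0.mul (hp 1 1)
  · exact h0.mul (hp 1 2)
  · exact h0.mul (hp 2 2)

/-- outside the support everything vanishes -/
theorem pd_zero {φ : E3 → ℝ} {x : E3} (hx : x ∉ tsupport φ) (i : Fin 3) : pd i φ x = 0 := by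
  have h : φ =ᶠ[𝓝 x] fun _ => 0 := notMem_tsupport_iff_eventuallyEq.mp hx
  rw [pd_congr h, pd_const]

theorem lt_zero {φ : E3 → ℝ} {x : E3} (hx : x ∉ tsupport φ) : lt φ x = 0 := by
  have h : φ =ᶠ[𝓝 x] fun _ => 0 := notMem_tsupport_iff_eventuallyEq.mp hx
  unfold lt
  refine Finset.sum_eq_zero fun i _ => ?_
  have h1 : (pd i fun y => y 0 * φ y) =ᶠ[𝓝 x] fun _ => 0 := by
    have h2 := h.eventuallyEq_nhds
    filter_upwards [h2] with y hy
    have h3 : (fun y : E3 => y 0 * φ y) =ᶠ[𝓝 y] fun _ => 0 := by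
      filter_upwards [hy] with z hz
      rw [hz, mul_zero]
    rw [pd_congr h3, pd_const]
  rw [pd_congr h1, pd_const]

theorem pd_contf {φ : E3 → ℝ} (h : ContDiff ℝ ∞ φ) (i : Fin 3) : ContDiff ℝ ∞ (pd i φ) :=
  contDiff_iff_contDiffAt.mpr fun _ => pd_contDiffAt i h.contDiffAt (by simp)

theorem tphi_contf {φ : E3 → ℝ} (h : ContDiff ℝ ∞ φ) : ContDiff ℝ ∞ (fun y : E3 => y 0 * φ y) :=
  (contDiff_apply ℝ ℝ (0 : Fin 3)).mul h

theorem lt_cont {φ : E3 → ℝ} (h : ContDiff ℝ ∞ φ) : Continuous (lt φ) := by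
  unfold lt
  exact continuous_finsetSum _ fun i _ => (pd_contf (pd_contf (tphi_contf h) i) i).continuous

/-- the integral of a derivative -/
theorem int_pd (h2 : S_Ibp) {ψ : E3 → ℝ} (hψ : ContDiff ℝ ∞ ψ) (hc : HasCompactSupport ψ)
    (i : Fin 3) : Integrable (pd i ψ) ∧ ∫ x, pd i ψ x = 0 := by
  obtain ⟨h3, h4, h5⟩ := h2 ψ (fun _ => 1) univ i isOpen_univ (hψ.of_le (by simp)) hc
    (subset_univ _) contDiffOn_const
  simp only [mul_one, pd_const, mul_zero, integral_zero, neg_zero] at h3 h5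
  exact ⟨h3, h5⟩

theorem pd_comp_supp {ψ : E3 → ℝ} (hc : HasCompactSupport ψ) (i : Fin 3) :
    HasCompactSupport (pd i ψ) :=
  HasCompactSupport.intro hc fun _ hx => pd_zero hx i

theorem tphi_comp_supp {ψ : E3 → ℝ} (hc : HasCompactSupport ψ) :
    HasCompactSupport (fun y : E3 => y 0 * ψ y) :=
  HasCompactSupport.intro hc fun x hx => by rw [image_eq_zero_of_notMem_tsupport hx, mul_zero]

theorem int_lt (h2 : S_Ibp) {φ : E3 → ℝ} (hφ : ContDiff ℝ ∞ φ) (hc : HasCompactSupport φ) :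
    Integrable (lt φ) ∧ ∫ x, lt φ x = 0 := by
  have hk := fun i : Fin 3 => int_pd h2 (pd_contf (tphi_contf hφ) i)
    (pd_comp_supp (tphi_comp_supp hc) i) i
  constructor
  · unfold lt
    exact integrable_finsetSum _ fun i _ => (hk i).1
  · unfold lt
    rw [integral_finsetSum _ fun i _ => (hk i).1]
    exact Finset.sum_eq_zero fun i _ => (hk i).2

/-- the integrand -/
noncomputable def G (M : J8 → ℝ) (Y : Fin 3 → J8 → ℝ) (F : Fin 3 → E3 → ℝ) (e : Fin 3 → ℝ)
    (φ : E3 → ℝ) (x : E3) : ℝ :=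
  M (jet F x + jt e) * lt φ x - ∑ i, Y i (jet F x + jt e) * pd i φ x

theorem G_cont {p : ℝ} {M : J8 → ℝ} {Y : Fin 3 → J8 → ℝ} (hc : FCert p M Y)
    {F : Fin 3 → E3 → ℝ} (hF : SW F half) (e : Fin 3 → ℝ) {φ : E3 → ℝ} (hφ : Test φ) :
    ContinuousOn (G M Y F e φ) (tsupport φ) := by
  have h1 : ContinuousOn (fun x => jet F x + jt e) (tsupport φ) :=
    ((jet_cont hF).mono hφ.supp).add continuousOn_const
  unfold G
  refine ContinuousOn.sub ?_ ?_
  · exact (hc.cM.comp_continuousOn h1).mul (lt_cont hφ.smooth).continuousOn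
  · refine continuousOn_finsetSum _ fun i _ => ?_
    exact ((hc.cY i).comp_continuousOn h1).mul (pd_contf hφ.smooth i).continuous.continuousOn

theorem G_off {M : J8 → ℝ} {Y : Fin 3 → J8 → ℝ} {F : Fin 3 → E3 → ℝ} {φ : E3 → ℝ}
    (e : Fin 3 → ℝ) {x : E3} (hx : x ∉ tsupport φ) : G M Y F e φ x = 0 := by
  unfold G
  simp only [lt_zero hx, pd_zero hx, mul_zero, Finset.sum_const_zero, sub_zero]

theorem G_int {p : ℝ} {M : J8 → ℝ} {Y : Fin 3 → J8 → ℝ} (hc : FCert p M Y)
    {F : Fin 3 → E3 → ℝ} (hF : SW F half) (e : Fin 3 → ℝ) {φ : E3 → ℝ} (hφ : Test φ) :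
    Integrable (G M Y F e φ) := by
  have h1 : IntegrableOn (G M Y F e φ) (tsupport φ) :=
    (G_cont hc hF e hφ).integrableOn_compact hφ.comp
  refine (integrableOn_iff_integrable_of_support_subset fun x hx => ?_).mp h1
  by_contra h
  exact hx (G_off e h)

end SlabWX

open SlabWX in
theorem pr_SlabW (h1 : S_Weak) (h2 : S_Ibp) : S_SlabW := by
  intro p M Y hc F hF e φ hφ
  have h3 := h1 p M Y hc F hF e φ hφ
  obtain ⟨h4, h5⟩ := int_lt h2 hφ.smooth hφ.comp
  have h6 := fun i : Fin 3 => int_pd h2 hφ.smooth hφ.comp i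
  have h7 : ∀ x, (M (jet F x + jt e) - M (jt e)) * lt φ x -
      ∑ i, (Y i (jet F x + jt e) - Y i (jt e)) * pd i φ x =
      G M Y F e φ x - (M (jt e) * lt φ x - ∑ i, Y i (jt e) * pd i φ x) := by
    intro x
    simp only [G, sub_mul, Finset.sum_sub_distrib]
    ring
  have h8 : Integrable (fun x => ∑ i, Y i (jt e) * pd i φ x) :=
    integrable_finsetSum _ fun i _ => (h6 i).1.const_mul _
  simp only [h7]
  have h9 : Integrable (fun x => M (jt e) * lt φ x - ∑ i, Y i (jt e) * pd i φ x) :=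
    (h4.const_mul _).sub h8
  rw [integral_sub (G_int hc hF e hφ) h9, integral_sub (h4.const_mul _) h8,
    integral_const_mul, h5, integral_finsetSum _ fun i _ => (h6 i).1.const_mul _]
  simp only [integral_const_mul, (h6 _).2, mul_zero, Finset.sum_const_zero, sub_zero]
  exact h3

end Pool.Agent.Work.MP_440970_an.FC
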