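import Pool.Agent.Work.MP_440970_an.FC.Stmts

/-!
# Item TestR
-/

open MeasureTheory Set Filter Topology
open scoped ContDiff ENNReal

namespace Pool.Agent.Work.MP_440970_an.FC

open BH

namespace TestRX

/-- separated functions -/
def S (a b c : ℝ → ℝ) (y : E3) : ℝ := a (y 0) * (b (y 1) * c (y 2))

theorem dco (j : Fin 3) (x : E3) : DifferentiableAt ℝ (fun y : E3 => y j) x :=
  ((ContinuousLinearMap.proj (R := ℝ) (φ := fun _ : Fin 3 => ℝ) j).hasFDerivAt).differentiableAt

theorem diff_coord {a : ℝ → ℝ} (ha : Differentiable ℝ a) (j : Fin 3) (x : E3) :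
    DifferentiableAt ℝ (fun y : E3 => a (y j)) x :=
  (ha (x j)).comp x (dco j x)

theorem pd_one {a : ℝ → ℝ} (ha : Differentiable ℝ a) (i j : Fin 3) (x : E3) :
    pd i (fun y : E3 => a (y j)) x = deriv a (x j) * if i = j then 1 else 0 := by
  have h := pd_comp (f := fun y : E3 => y j) (x := x) i (ha (x j)).hasDerivAt (dco j x)
  rw [h, pd_coord]

theorem pd_S {a b c : ℝ → ℝ} (ha : Differentiable ℝ a) (hb : Differentiable ℝ b)
    (hc : Differentiable ℝ c) (i : Fin 3) (x : E3) :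
    pd i (S a b c) x = a (x 0) * (b (x 1) * (deriv c (x 2) * if i = 2 then 1 else 0) +
      c (x 2) * (deriv b (x 1) * if i = 1 then 1 else 0)) +
      b (x 1) * c (x 2) * (deriv a (x 0) * if i = 0 then 1 else 0) := by
  have h0 := diff_coord ha 0 x
  have h1 := diff_coord hb 1 x
  have h2 := diff_coord hc 2 x
  have e1 : pd i (S a b c) x = pd i (fun y : E3 => a (y 0) * (b (y 1) * c (y 2))) x := rfl
  have h12 : DifferentiableAt ℝ (fun y : E3 => b (y 1) * c (y 2)) x := h1.mul h2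
  have e2 : pd i (fun y : E3 => a (y 0) * (b (y 1) * c (y 2))) x =
      a (x 0) * pd i (fun y : E3 => b (y 1) * c (y 2)) x +
      b (x 1) * c (x 2) * pd i (fun y : E3 => a (y 0)) x := pd_mul i h0 h12
  have e3 : pd i (fun y : E3 => b (y 1) * c (y 2)) x =
      b (x 1) * pd i (fun y : E3 => c (y 2)) x + c (x 2) * pd i (fun y : E3 => b (y 1)) x :=
    pd_mul i h1 h2
  rw [e1, e2, e3, pd_one ha, pd_one hb, pd_one hc]

theorem pd0_S {a b c : ℝ → ℝ} (ha : Differentiable ℝ a) (hb : Differentiable ℝ b)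
    (hc : Differentiable ℝ c) : pd 0 (S a b c) = S (deriv a) b c := by
  funext x
  rw [pd_S ha hb hc, if_neg (by decide), if_neg (by decide), if_pos rfl]
  unfold S
  ring

theorem pd1_S {a b c : ℝ → ℝ} (ha : Differentiable ℝ a) (hb : Differentiable ℝ b)
    (hc : Differentiable ℝ c) : pd 1 (S a b c) = S a (deriv b) c := by
  funext x
  rw [pd_S ha hb hc, if_neg (by decide), if_pos rfl, if_neg (by decide)]
  unfold S
  ring

theorem pd2_S {a b c : ℝ → ℝ} (ha : Differentiable ℝ a) (hb : Differentiable ℝ b)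
    (hc : Differentiable ℝ c) : pd 2 (S a b c) = S a b (deriv c) := by
  funext x
  rw [pd_S ha hb hc, if_pos rfl, if_neg (by decide), if_neg (by decide)]
  unfold S
  ring

theorem deriv_div {ψ : ℝ → ℝ} (hψ : Differentiable ℝ ψ) (R : ℝ) :
    (deriv fun s => ψ (s / R)) = fun s => deriv ψ (s / R) / R := by
  funext s
  have h1 : HasDerivAt (fun s : ℝ => s / R) (1 / R) s := (hasDerivAt_id s).div_const R
  have h := (hψ (s / R)).hasDerivAt.comp s h1
  have h2 : deriv (fun s => ψ (s / R)) s = deriv ψ (s / R) * (1 / R) := h.deriv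
  rw [h2]
  ring

theorem deriv_div2 {ψ : ℝ → ℝ} (hψ : Differentiable ℝ ψ) (hψ2 : Differentiable ℝ (deriv ψ))
    (R : ℝ) : (deriv (deriv fun s => ψ (s / R))) = fun s => deriv (deriv ψ) (s / R) / R ^ 2 := by
  rw [deriv_div hψ]
  funext s
  have h1 : HasDerivAt (fun s : ℝ => s / R) (1 / R) s := (hasDerivAt_id s).div_const R
  have h := ((hψ2 (s / R)).hasDerivAt.comp s h1).div_const R
  have h2 : deriv (fun s => deriv ψ (s / R) / R) s = deriv (deriv ψ) (s / R) * (1 / R) / R :=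
    h.deriv
  rw [h2]
  ring

theorem smooth_deriv {θ : ℝ → ℝ} (h : ContDiff ℝ ∞ θ) : ContDiff ℝ ∞ (deriv θ) := by
  have h2 : ContDiff ℝ ((∞ : WithTop ℕ∞) + 1) θ := h
  exact (contDiff_succ_iff_deriv.1 h2).2.2

theorem smooth_diff {θ : ℝ → ℝ} (h : ContDiff ℝ ∞ θ) : Differentiable ℝ θ :=
  h.differentiable (by simp)

end TestRX

open TestRX in
theorem pr_TestR : S_TestR := by
  intro θ ψ R hθ hψ hψc hψn hR
  have hψR : ContDiff ℝ ∞ fun s : ℝ => ψ (s / R) := hψ.comp (contDiff_id.div_const R)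
  have hsθ : ContDiff ℝ ∞ fun s : ℝ => s * θ s := contDiff_id.mul hθ.smooth
  have e : tR θ ψ R = S θ (fun s => ψ (s / R)) (fun s => ψ (s / R)) := rfl
  have e2 : (fun y : E3 => y 0 * tR θ ψ R y) =
      S (fun s => s * θ s) (fun s => ψ (s / R)) (fun s => ψ (s / R)) := by
    funext y
    simp only [tR, S]
    ring
  have dθ := smooth_diff hθ.smooth
  have dψ := smooth_diff hψR
  have dψ1 := smooth_diff (smooth_deriv hψR)
  have ds := smooth_diff hsθ
  have ds1 := smooth_diff (smooth_deriv hsθ)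
  have k1 := deriv_div (smooth_diff hψ) R
  have k2 := deriv_div2 (smooth_diff hψ) (smooth_diff (smooth_deriv hψ)) R
  have c0 : Continuous fun x : E3 => x 0 := continuous_apply 0
  refine ⟨⟨?_, ?_, ?_, ?_⟩, ?_⟩
  · have q0 : ContDiff ℝ ∞ fun x : E3 => θ (x 0) := hθ.smooth.comp (contDiff_apply ℝ ℝ (0 : Fin 3))
    have q1 : ContDiff ℝ ∞ fun x : E3 => ψ (x 1 / R) := hψR.comp (contDiff_apply ℝ ℝ (1 : Fin 3))
    have q2 : ContDiff ℝ ∞ fun x : E3 => ψ (x 2 / R) := hψR.comp (contDiff_apply ℝ ℝ (2 : Fin 3))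
    exact q0.mul (q1.mul q2)
  · have hK : IsCompact (Set.pi univ fun i : Fin 3 =>
        (![tsupport θ, (fun s => s / R) ⁻¹' tsupport ψ, (fun s => s / R) ⁻¹' tsupport ψ] :
          Fin 3 → Set ℝ) i) := by
      have hp : IsCompact ((fun s : ℝ => s / R) ⁻¹' tsupport ψ) := by
        have := (Homeomorph.mulRight₀ R⁻¹ (inv_ne_zero hR.ne')).isCompact_preimage.2 hψc.isCompact
        have e3 : (fun s : ℝ => s / R) = (Homeomorph.mulRight₀ R⁻¹ (inv_ne_zero hR.ne')) := by
          funext s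
          simp [div_eq_mul_inv]
        rw [e3]
        exact this
      refine isCompact_univ_pi fun i => ?_
      fin_cases i
      · exact hθ.comp.isCompact
      · exact hp
      · exact hp
    refine HasCompactSupport.intro hK fun x hx => ?_
    by_contra hne
    apply hx
    have hne' : θ (x 0) * (ψ (x 1 / R) * ψ (x 2 / R)) ≠ 0 := hne
    have n0 : θ (x 0) ≠ 0 := left_ne_zero_of_mul hne'
    have n12 := right_ne_zero_of_mul hne'
    have n1 : ψ (x 1 / R) ≠ 0 := left_ne_zero_of_mul n12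
    have n2 : ψ (x 2 / R) ≠ 0 := right_ne_zero_of_mul n12
    intro i _
    fin_cases i
    · exact subset_tsupport θ n0
    · exact subset_tsupport ψ n1
    · exact subset_tsupport ψ n2
  · have hcl : IsClosed {x : E3 | x 0 ∈ tsupport θ} := (isClosed_tsupport θ).preimage c0
    have hs : tsupport (tR θ ψ R) ⊆ {x : E3 | x 0 ∈ tsupport θ} := by
      refine closure_minimal (fun x hx => ?_) hcl
      have hne' : θ (x 0) * (ψ (x 1 / R) * ψ (x 2 / R)) ≠ 0 := hx
      exact subset_tsupport θ (left_ne_zero_of_mul hne')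
    intro x hx
    exact hθ.supp (hs hx)
  · intro x
    exact mul_nonneg (hθ.nonneg _) (mul_nonneg (hψn _) (hψn _))
  · intro x
    refine ⟨?_, ?_, ?_, ?_⟩
    · rw [e, pd0_S dθ dψ dψ]
      rfl
    · rw [e, pd1_S dθ dψ dψ, k1]
      rfl
    · rw [e, pd2_S dθ dψ dψ, k1]
      rfl
    · unfold lt
      rw [e2, Fin.sum_univ_three, pd0_S ds dψ dψ, pd0_S ds1 dψ dψ, pd1_S ds dψ dψ,
        pd1_S ds dψ1 dψ, pd2_S ds dψ dψ, pd2_S ds dψ dψ1, k2]
      simp only [S]
      ring

end Pool.Agent.Work.MP_440970_an.FC
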