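import Pool.Agent.Work.MP_440970_an.FC.Stmts

open MeasureTheory Set Filter Topology
open scoped ContDiff ENNReal

namespace Pool.Agent.Work.MP_440970_an.FC

open BH

namespace WeakX

theorem half_open : IsOpen half := isOpen_lt continuous_const (continuous_apply 0)

theorem jet_cont {F : Fin 3 → E3 → ℝ} (hF : SW F half) : ContinuousOn (jet F) half := by
  have hc : ∀ i, ContinuousOn (F i) half := fun i => (hF.smooth i).continuousOn
  have hp : ∀ i j, ContinuousOn (pd i (F j)) half := fun i j =>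
    (pd_contDiffOn (n := ∞) (m := 0) i half_open (hF.smooth j) (by simp)).continuousOn
  have h0 : ContinuousOn (fun x : E3 => x 0) half := (continuous_apply 0).continuousOn
  refine continuousOn_pi.mpr fun k => ?_
  fin_cases k
  · exact hc 0
  · exact hc 1
  · exact hc 2
  · exact h0.mul (hp 0 1)
  · exact h0.mul (hp 0 2)
  · exact h0.mul (hp 1 1)
  · exact h0.mul (hp 1 2)
  · exact h0.mul (hp 2 2)

theorem jp_cont : Continuous (fun q : (Fin 3 → ℝ) × (Fin 3 → Fin 3 → ℝ) × E3 =>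
    jp q.1 q.2.1 q.2.2) := by
  refine continuous_pi fun k => ?_
  fin_cases k
  · show Continuous (fun q : (Fin 3 → ℝ) × (Fin 3 → Fin 3 → ℝ) × E3 =>
      q.1 0 + ∑ j, q.2.1 0 j * q.2.2 j)
    fun_prop
  · show Continuous (fun q : (Fin 3 → ℝ) × (Fin 3 → Fin 3 → ℝ) × E3 =>
      q.1 1 + ∑ j, q.2.1 1 j * q.2.2 j)
    fun_prop
  · show Continuous (fun q : (Fin 3 → ℝ) × (Fin 3 → Fin 3 → ℝ) × E3 =>
      q.1 2 + ∑ j, q.2.1 2 j * q.2.2 j)
    fun_prop
  · show Continuous (fun q : (Fin 3 → ℝ) × (Fin 3 → Fin 3 → ℝ) × E3 => q.2.2 0 * q.2.1 0 1)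
    fun_prop
  · show Continuous (fun q : (Fin 3 → ℝ) × (Fin 3 → Fin 3 → ℝ) × E3 => q.2.2 0 * q.2.1 0 2)
    fun_prop
  · show Continuous (fun q : (Fin 3 → ℝ) × (Fin 3 → Fin 3 → ℝ) × E3 => q.2.2 0 * q.2.1 1 1)
    fun_prop
  · show Continuous (fun q : (Fin 3 → ℝ) × (Fin 3 → Fin 3 → ℝ) × E3 => q.2.2 0 * q.2.1 1 2)
    fun_prop
  · show Continuous (fun q : (Fin 3 → ℝ) × (Fin 3 → Fin 3 → ℝ) × E3 => q.2.2 0 * q.2.1 2 2)
    fun_prop

theorem jp_zero (e : Fin 3 → ℝ) (x : E3) : jp e 0 x = jt e := by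
  funext k
  fin_cases k <;> simp [jp, jt]

/-- outside the support everything vanishes -/
theorem pd_zero {φ : E3 → ℝ} {x : E3} (hx : x ∉ tsupport φ) (i : Fin 3) : pd i φ x = 0 := by
  have h : φ =ᶠ[𝓝 x] fun _ => 0 := notMem_tsupport_iff_eventuallyEq.mp hx
  rw [pd_congr h, pd_const]

theorem lt_zero {φ : E3 → ℝ} {x : E3} (hx : x ∉ tsupport φ) : lt φ x = 0 := by
  have h : φ =ᶠ[𝓝 x] fun _ => 0 := notMem_tsupport_iff_eventuallyEq.mp hx
  unfold lt
  refine Finset.sum_eq_zero fun i _ => ?_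
  have h1 : (pd i fun y => y 0 * φ y) =ᶠ[𝓝 x] fun _ => 0 := by
    have h2 := h.eventuallyEq_nhds
    filter_upwards [h2] with y hy
    have h3 : (fun y : E3 => y 0 * φ y) =ᶠ[𝓝 y] fun _ => 0 := by
      filter_upwards [hy] with z hz
      rw [hz, mul_zero]
    rw [pd_congr h3, pd_const]
  rw [pd_congr h1, pd_const]

theorem pd_contf {φ : E3 → ℝ} (h : ContDiff ℝ ∞ φ) (i : Fin 3) : ContDiff ℝ ∞ (pd i φ) :=
  contDiff_iff_contDiffAt.mpr fun _ => pd_contDiffAt i h.contDiffAt (by simp)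

theorem lt_cont {φ : E3 → ℝ} (h : ContDiff ℝ ∞ φ) : Continuous (lt φ) := by
  have h0 : ContDiff ℝ ∞ (fun y : E3 => y 0 * φ y) :=
    (contDiff_apply ℝ ℝ (0 : Fin 3)).mul h
  unfold lt
  exact continuous_finsetSum _ fun i _ => (pd_contf (pd_contf h0 i) i).continuous

/-- the integrand -/
noncomputable def G (M : J8 → ℝ) (Y : Fin 3 → J8 → ℝ) (F : Fin 3 → E3 → ℝ) (φ : E3 → ℝ)
    (q : (Fin 3 → ℝ) × (Fin 3 → Fin 3 → ℝ) × E3) : ℝ :=
  M (jet F q.2.2 + jp q.1 q.2.1 q.2.2) * lt φ q.2.2 -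
    ∑ i, Y i (jet F q.2.2 + jp q.1 q.2.1 q.2.2) * pd i φ q.2.2

theorem G_cont {p : ℝ} {M : J8 → ℝ} {Y : Fin 3 → J8 → ℝ} (hc : FCert p M Y)
    {F : Fin 3 → E3 → ℝ} (hF : SW F half) {φ : E3 → ℝ} (hφ : Test φ) :
    ContinuousOn (G M Y F φ) (univ ×ˢ (univ ×ˢ tsupport φ)) := by
  have h1 : ContinuousOn (fun q : (Fin 3 → ℝ) × (Fin 3 → Fin 3 → ℝ) × E3 =>
      jet F q.2.2 + jp q.1 q.2.1 q.2.2) (univ ×ˢ (univ ×ˢ tsupport φ)) := by
    refine ContinuousOn.add ?_ jp_cont.continuousOn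
    refine (jet_cont hF).comp (by fun_prop) ?_
    rintro ⟨a, b, x⟩ ⟨_, _, hx⟩
    exact hφ.supp hx
  unfold G
  refine ContinuousOn.sub ?_ ?_
  · refine (hc.cM.comp_continuousOn h1).mul ?_
    exact ((lt_cont hφ.smooth).comp (by fun_prop)).continuousOn
  · refine continuousOn_finsetSum _ fun i _ => ?_
    refine ((hc.cY i).comp_continuousOn h1).mul ?_
    exact ((pd_contf hφ.smooth i).continuous.comp (by fun_prop)).continuousOn

theorem G_off {M : J8 → ℝ} {Y : Fin 3 → J8 → ℝ} {F : Fin 3 → E3 → ℝ} {φ : E3 → ℝ}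
    (a : Fin 3 → ℝ) (b : Fin 3 → Fin 3 → ℝ) {x : E3} (hx : x ∉ tsupport φ) :
    G M Y F φ (a, b, x) = 0 := by
  unfold G
  simp only [lt_zero hx, pd_zero hx, mul_zero, Finset.sum_const_zero, sub_zero]

end WeakX

open WeakX in
theorem pr_Weak (h1 : S_SWpf) (h2 : S_Gen) (h3 : S_Weak0) : S_Weak := by
  intro p M Y hc F hF e φ hφ
  set S : Set E3 := tsupport φ with hS
  have hSc : IsCompact S := hφ.comp
  have hSm : MeasurableSet S := hSc.isClosed.measurableSet
  have key := fun n : ℕ => h2 F e (1 / ((n : ℝ) + 1)) hF (by positivity)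
  choose e' A hs ht he hA hz using key
  -- the integrals
  have hI : ∀ n, 0 ≤ ∫ x in S, G M Y F φ (e' n, A n, x) := by
    intro n
    obtain ⟨hsw, hj⟩ := h1 F half (e' n) (A n) hF (hs n) (ht n)
    have h4 := h3 p M Y hc (pf F (e' n) (A n)) hsw
      (fun x hx => by rw [hj x hx]; exact hz n x hx) φ hφ
    have h5 : ∀ x, M (jet (pf F (e' n) (A n)) x) * lt φ x -
        ∑ i, Y i (jet (pf F (e' n) (A n)) x) * pd i φ x = G M Y F φ (e' n, A n, x) := by
      intro x
      by_cases hx : x ∈ tsupport φ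
      · unfold G
        rw [hj x (hφ.supp hx)]
      · rw [G_off _ _ hx]
        simp only [lt_zero hx, pd_zero hx, mul_zero, Finset.sum_const_zero, sub_zero]
    simp only [h5] at h4
    rwa [setIntegral_eq_integral_of_forall_compl_eq_zero (fun x hx => G_off _ _ hx)]
  -- the claim
  have h6 : ∫ x, (M (jet F x + jt e) * lt φ x - ∑ i, Y i (jet F x + jt e) * pd i φ x) =
      ∫ x in S, G M Y F φ (e, 0, x) := by
    rw [setIntegral_eq_integral_of_forall_compl_eq_zero (fun x hx => G_off _ _ hx)]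
    refine integral_congr_ae (Eventually.of_forall fun x => ?_)
    simp only [G, jp_zero]
  rw [h6]
  -- limits of the parameters
  have h0 : Tendsto (fun n : ℕ => 1 / ((n : ℝ) + 1)) atTop (𝓝 0) :=
    tendsto_one_div_add_atTop_nhds_zero_nat
  have hel : Tendsto e' atTop (𝓝 e) := by
    refine tendsto_pi_nhds.mpr fun i => ?_
    refine tendsto_iff_norm_sub_tendsto_zero.mpr ?_
    exact squeeze_zero (fun _ => norm_nonneg _) (fun n => (he n i).le) h0
  have hAl : Tendsto A atTop (𝓝 0) := by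
    refine tendsto_pi_nhds.mpr fun i => tendsto_pi_nhds.mpr fun j => ?_
    refine tendsto_iff_norm_sub_tendsto_zero.mpr ?_
    refine squeeze_zero (fun _ => norm_nonneg _) (fun n => ?_) h0
    simpa using (hA n i j).le
  have hcont := G_cont hc hF hφ
  obtain ⟨K, hK⟩ : ∃ K, ∀ q ∈ Metric.closedBall e 1 ×ˢ (Metric.closedBall
      (0 : Fin 3 → Fin 3 → ℝ) 1 ×ˢ S), ‖G M Y F φ q‖ ≤ K := by
    refine IsCompact.exists_bound_of_continuousOn ?_ (hcont.mono ?_)
    · exact (isCompact_closedBall e 1).prod ((isCompact_closedBall _ 1).prod hSc)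
    · rintro ⟨a, b, x⟩ ⟨_, _, hx⟩
      exact ⟨mem_univ _, mem_univ _, hx⟩
  have hfin : IsFiniteMeasure (volume.restrict S) := ⟨by
    rw [Measure.restrict_apply_univ]
    exact hSc.measure_lt_top⟩
  refine ge_of_tendsto (f := fun n => ∫ x in S, G M Y F φ (e' n, A n, x)) (b := 0) (a :=
    ∫ x in S, G M Y F φ (e, 0, x)) (x := atTop) ?_ (Eventually.of_forall hI)
  refine tendsto_integral_of_dominated_convergence (fun _ => K) ?_ (integrable_const K) ?_ ?_
  · intro n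
    refine ContinuousOn.aestronglyMeasurable ?_ hSm
    refine hcont.comp (by fun_prop) ?_
    intro x hx
    exact ⟨mem_univ _, mem_univ _, hx⟩
  · intro n
    refine (ae_restrict_mem hSm).mono fun x hx => hK _ ⟨?_, ?_, hx⟩
    · rw [Metric.mem_closedBall, dist_eq_norm]
      refine (pi_norm_le_iff_of_nonneg zero_le_one).mpr fun i => ?_
      refine ((he n i).le).trans ?_
      rw [div_le_one (by positivity)]
      have := Nat.cast_nonneg (α := ℝ) n
      linarith
    · rw [Metric.mem_closedBall, dist_eq_norm, sub_zero]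
      refine (pi_norm_le_iff_of_nonneg zero_le_one).mpr fun i => ?_
      refine (pi_norm_le_iff_of_nonneg zero_le_one).mpr fun j => ?_
      refine ((hA n i j).le).trans ?_
      rw [div_le_one (by positivity)]
      have := Nat.cast_nonneg (α := ℝ) n
      linarith
  · refine (ae_restrict_mem hSm).mono fun x hx => ?_
    have h7 : ContinuousWithinAt (G M Y F φ) (univ ×ˢ (univ ×ˢ tsupport φ)) (e, 0, x) :=
      hcont (e, 0, x) ⟨mem_univ _, mem_univ _, hx⟩
    refine h7.tendsto.comp ?_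
    refine tendsto_nhdsWithin_iff.mpr ⟨?_, Eventually.of_forall fun n =>
      ⟨mem_univ _, mem_univ _, hx⟩⟩
    exact hel.prodMk_nhds (hAl.prodMk_nhds tendsto_const_nhds)

end Pool.Agent.Work.MP_440970_an.FC
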