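import Pool.Agent.Work.MP_440970_an.Bdx.B07
import Pool.Agent.Work.MP_440970_an.Bdx.B01
import Pool.Agent.Work.MP_440970_an.Bdx.B03
import Pool.Agent.Work.MP_440970_an.Bdx.B08
import Pool.Agent.Work.MP_440970_an.FC.I_Weak
import Pool.Agent.Work.MP_440970_an.FC.I_SlabW
import Pool.Agent.Work.MP_440970_an.FC.I_TestR
import Pool.Agent.Work.MP_440970_an.FC.I_Ker
import Pool.Agent.Work.MP_440970_an.FC.I_RFnic
import Pool.Agent.Work.MP_440970_an.FC.I_RJen
import Pool.Agent.Work.MP_440970_an.FC.I_RMom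

/-!
# Flux certificates for gradient fields: all items
-/

namespace Pool.Agent.Work.MP_440970_an.FC

/-- a flux certificate with `g(e₁) > 0` shows that `T` is not onto and that the real span is not
dense -/
theorem all_fc : S_All := by
  have weak0 := pr_Weak0 pr_JetNJ pr_ChainG pr_ChainY pr_Ibp
  have weak := pr_Weak pr_SWpf pr_Gen weak0
  have slabw := pr_SlabW weak pr_Ibp
  have slab := pr_Slab slabw pr_TestR pr_Vol pr_Lip
  have nice := pr_Nice pr_Lip pr_Cont slab pr_OneD
  have hpjet := pr_HpJet pr_Grad pr_MaxP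
  have hpnic := pr_HpNic hpjet pr_MxMeas
  have hpjen := pr_HpJen hpnic nice pr_Lip pr_MxMeas
  have kerb := pr_KerB pr_Ker
  have rffar := pr_RFfar pr_Ker kerb
  have rfsw := pr_RFsw pr_Ker
  have rfnic := pr_RFnic rfsw rffar
  have rjen := pr_RJen rfnic rffar rfsw nice pr_Lip
  exact asm (pr_NotOnto hpjen) (pr_RNot rjen pr_RMom pr_Lip)

end Pool.Agent.Work.MP_440970_an.FC
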