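import Pool.Agent.Work.MP_440970_an.BH.Basic

/-!
# Flux certificates for gradient fields: definitions

A *Stein-Weiss system* on an open subset of `ℝ³` is a smooth vector field `F` with
`∂ᵢ Fⱼ = ∂ⱼ Fᵢ` and `∑ ∂ᵢ Fᵢ = 0`.  Its *jet* at `x` consists of `F` and of `x₀ ∇F`.
A *flux certificate* is a pair `(M, Y)` of a function and a vector field on the space of jets such
that `div (t ∇ M - M e₀ + Y) ≥ 0` for all Stein-Weiss systems.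
-/

open MeasureTheory Set Filter Topology
open scoped ContDiff ENNReal

namespace Pool.Agent.Work.MP_440970_an.FC

open BH

/-- the open half-space -/
def half : Set E3 := {x | 0 < x 0}

/-- the point at height `t` above `z` -/
noncomputable def cp (t : ℝ) (z : ℂ) : E3 := ![t, z.re, z.im]

/-- Stein-Weiss systems -/
structure SW (F : Fin 3 → E3 → ℝ) (U : Set E3) : Prop where
  op : IsOpen U
  smooth : ∀ i, ContDiffOn ℝ ∞ (F i) U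
  curl : ∀ x ∈ U, ∀ i j, pd i (F j) x = pd j (F i) x
  div : ∀ x ∈ U, ∑ i, pd i (F i) x = 0

/-- the space of jets; the coordinates are `F₀, F₁, F₂, K₀₁, K₀₂, K₁₁, K₁₂, K₂₂` with
`K = x₀ ∇F` -/
abbrev J8 : Type := Fin 8 → ℝ

/-- partial derivatives on the space of jets -/
noncomputable def pz (k : Fin 8) (f : J8 → ℝ) (z : J8) : ℝ := fderiv ℝ f z (Pi.single k 1)

/-- the jet of `F` at `x` -/
noncomputable def jet (F : Fin 3 → E3 → ℝ) (x : E3) : J8 :=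
  ![F 0 x, F 1 x, F 2 x, x 0 * pd 0 (F 1) x, x 0 * pd 0 (F 2) x, x 0 * pd 1 (F 1) x,
    x 0 * pd 1 (F 2) x, x 0 * pd 2 (F 2) x]

/-- the third order part of the jet: `T₀₁₁, T₀₁₂, T₀₂₂, T₁₁₁, T₁₁₂, T₁₂₂, T₂₂₂` with
`T = x₀² ∇²F` -/
noncomputable def tau (F : Fin 3 → E3 → ℝ) (x : E3) : Fin 7 → ℝ :=
  ![x 0 ^ 2 * pd 0 (pd 1 (F 1)) x, x 0 ^ 2 * pd 0 (pd 1 (F 2)) x, x 0 ^ 2 * pd 0 (pd 2 (F 2)) x,
    x 0 ^ 2 * pd 1 (pd 1 (F 1)) x, x 0 ^ 2 * pd 1 (pd 1 (F 2)) x, x 0 ^ 2 * pd 1 (pd 2 (F 2)) x,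
    x 0 ^ 2 * pd 2 (pd 2 (F 2)) x]

/-- `t ∂ᵢ` of the jet -/
def Am (z : J8) (w : Fin 7 → ℝ) : Fin 3 → J8 :=
  ![![-z 5 - z 7, z 3, z 4, z 3 - w 3 - w 5, z 4 - w 4 - w 6, z 5 + w 0, z 6 + w 1, z 7 + w 2],
    ![z 3, z 5, z 6, w 0, w 1, w 3, w 4, w 5],
    ![z 4, z 6, z 7, w 1, w 2, w 4, w 5, w 6]]

/-- `t² Δ` of the jet -/
def Bm (w : Fin 7 → ℝ) : J8 :=
  ![0, 0, 0, 2 * (-w 3 - w 5), 2 * (-w 4 - w 6), 2 * w 0, 2 * w 1, 2 * w 2]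

/-- `t² Δ (M ∘ jet)` -/
noncomputable def LM (M : J8 → ℝ) (z : J8) (w : Fin 7 → ℝ) : ℝ :=
  ∑ k, ∑ l, pz k (pz l M) z * (∑ i, Am z w i k * Am z w i l) + ∑ k, pz k M z * Bm w k

/-- `t div (Y ∘ jet)` -/
noncomputable def LY (Y : Fin 3 → J8 → ℝ) (z : J8) (w : Fin 7 → ℝ) : ℝ :=
  ∑ i, ∑ k, pz k (Y i) z * Am z w i k

/-- flux certificates of exponent `p` -/
structure FCert (p : ℝ) (M : J8 → ℝ) (Y : Fin 3 → J8 → ℝ) : Prop where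
  cM : Continuous M
  cY : ∀ i, Continuous (Y i)
  sM : ∀ z, z ≠ 0 → ContDiffAt ℝ 2 M z
  sY : ∀ i z, z ≠ 0 → ContDiffAt ℝ 1 (Y i) z
  bM : ∃ C, ∀ z, |M z| ≤ C * ‖z‖ ^ p
  bY : ∃ C, ∀ i z, |Y i z| ≤ C * ‖z‖ ^ p
  pos : ∀ z, z ≠ 0 → ∀ w, 0 ≤ LM M z w + LY Y z w

/-- the jet of a constant field -/
def jt (e : Fin 3 → ℝ) : J8 := ![e 0, e 1, e 2, 0, 0, 0, 0, 0]

/-- the boundary function of a certificate -/
def gb (M : J8 → ℝ) (Y : Fin 3 → J8 → ℝ) (e : Fin 3 → ℝ) : ℝ := M (jt e) - Y 0 (jt e)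

/-- the perturbed field `F + e + A x` -/
def pf (F : Fin 3 → E3 → ℝ) (e : Fin 3 → ℝ) (A : Fin 3 → Fin 3 → ℝ) (i : Fin 3) (x : E3) : ℝ :=
  F i x + e i + ∑ j, A i j * x j

/-- `Δ (t φ)` -/
noncomputable def lt (φ : E3 → ℝ) (x : E3) : ℝ := ∑ i, pd i (pd i fun y => y 0 * φ y) x

/-- admissible test functions -/
structure Test (φ : E3 → ℝ) : Prop where
  smooth : ContDiff ℝ ∞ φ
  comp : HasCompactSupport φ
  supp : tsupport φ ⊆ half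
  nonneg : ∀ x, 0 ≤ φ x

/-- a Stein-Weiss system on a neighbourhood of the closed half-space whose jets are small -/
structure Nic (F : Fin 3 → E3 → ℝ) (U : Set E3) (b : ℂ → ℝ) : Prop where
  sw : SW F U
  sub : ∀ x : E3, 0 ≤ x 0 → x ∈ U
  intb : Integrable b
  bd : ∀ (t : ℝ) (z : ℂ), 0 ≤ t → ‖jet F (cp t z)‖ ≤ b z
  far : Tendsto (fun t : ℝ => ∫ z : ℂ, ‖jet F (cp t z)‖) atTop (𝓝 0)

/-- non-tangential maximal function of a function on the half-space -/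
noncomputable def Mx (u : E3 → ℝ) (z : ℂ) : ℝ≥0∞ :=
  ⨆ (t : ℝ) (w : ℂ) (_ : 0 < t) (_ : ‖w - z‖ < t), ‖u (cp t w)‖ₑ

/-- the space `H^p`, real functions -/
structure Hp (p : ℝ) (u : E3 → ℝ) : Prop where
  smooth : ContDiffOn ℝ ∞ u half
  harm : ∀ x ∈ half, ∑ i, pd i (pd i u) x = 0
  max : ∫⁻ z, Mx u z ^ p < ⊤

/-- `T` maps `H^p` onto `(L^p)³` -/
def TOnto (p : ℝ) : Prop := ∀ f : Fin 3 → ℂ → ℝ, (∀ i, Measurable (f i)) →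
  (∀ i, ∫⁻ z, ‖f i z‖ₑ ^ p < ⊤) → ∃ u : Fin 3 → E3 → ℝ, (∀ i, Hp p (u i)) ∧ SW u half ∧
    ∀ᵐ z : ℂ, ∀ i, Tendsto (fun t : ℝ => u i (cp t z)) (𝓝[>] 0) (𝓝 (f i z))

/-- the field of the real point charges `c k` at `a k` -/
noncomputable def RF {n : ℕ} (a : Fin n → ℂ) (c : Fin n → ℝ) (i : Fin 3) (x : E3) : ℝ :=
  ∑ k, c k * EE i (hz (a k) x)

/-- the kernel as a vector -/
noncomputable def Kv (z : ℂ) : Fin 3 → ℝ := ![0, z.re / ‖z‖ ^ 3, z.im / ‖z‖ ^ 3]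

end Pool.Agent.Work.MP_440970_an.FC
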