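import Pool.Agent.Work.MP_440970_an.FC.Stmts

/-!
# [RMom]
-/

open MeasureTheory Set Filter Topology
open scoped ContDiff ENNReal

namespace Pool.Agent.Work.MP_440970_an.FC

open BH

namespace RMomX

/-- the kernel -/
noncomputable def K (z : ℂ) : ℂ := z / (‖z‖ : ℂ) ^ 3

/-- the integral of `|f|^p` -/
noncomputable def np (p : ℝ) (f : ℂ → ℂ) : ℝ≥0∞ := ∫⁻ z, ‖f z‖ₑ ^ p

theorem lim (a : ℂ) :
    Tendsto (fun z : ℂ => K (z - a) * ((‖z‖ : ℂ) ^ 3 / z)) (Bornology.cobounded ℂ) (𝓝 1) := by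
  have h0 : ∀ᶠ z : ℂ in Bornology.cobounded ℂ, z ≠ 0 := Bornology.eventually_ne_cobounded 0
  have h1 : Tendsto (fun z : ℂ => (z - a) / z) (Bornology.cobounded ℂ) (𝓝 1) := by
    have h : Tendsto (fun z : ℂ => 1 - a * z⁻¹) (Bornology.cobounded ℂ) (𝓝 (1 - a * 0)) :=
      (tendsto_inv₀_cobounded.const_mul a).const_sub 1
    rw [mul_zero, sub_zero] at h
    refine h.congr' ?_
    filter_upwards [h0] with z hz
    field_simp
  have h2 : Tendsto (fun z : ℂ => ((‖(z - a) / z‖ : ℝ) : ℂ)⁻¹ ^ 3) (Bornology.cobounded ℂ)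
      (𝓝 1) := by
    have h : Tendsto (fun z : ℂ => ‖(z - a) / z‖) (Bornology.cobounded ℂ) (𝓝 ‖(1 : ℂ)‖) := h1.norm
    rw [norm_one] at h
    have h' : Tendsto (fun z : ℂ => ((‖(z - a) / z‖ : ℝ) : ℂ)) (Bornology.cobounded ℂ)
        (𝓝 ((1 : ℝ) : ℂ)) := (Complex.continuous_ofReal.tendsto 1).comp h
    have h'' := (h'.inv₀ (by simp)).pow 3
    simpa using h''
  have h3 := h1.mul h2
  rw [one_mul] at h3
  refine h3.congr' ?_
  filter_upwards [h0] with z hz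
  rw [norm_div, Complex.ofReal_div, K]
  simp only [div_eq_mul_inv, mul_inv, inv_inv, mul_pow, inv_pow]
  ring

theorem lower {n : ℕ} (a c : Fin n → ℂ) (hm : ∑ k, c k ≠ 0) : ∃ R : ℝ, ∀ z : ℂ, R ≤ ‖z‖ →
    ‖∑ k, c k‖ / 2 ≤ ‖∑ k, c k * K (z - a k)‖ * ‖z‖ ^ 2 := by
  have h1 : Tendsto (fun z : ℂ => ∑ k, c k * (K (z - a k) * ((‖z‖ : ℂ) ^ 3 / z)))
      (Bornology.cobounded ℂ) (𝓝 (∑ k, c k * 1)) :=
    tendsto_finsetSum _ fun k _ => (lim (a k)).const_mul (c k)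
  simp only [mul_one] at h1
  have h2 := h1.norm
  have hpos : 0 < ‖∑ k, c k‖ := norm_pos_iff.2 hm
  have h3 : ∀ᶠ z : ℂ in Bornology.cobounded ℂ, ‖∑ k, c k‖ / 2 <
      ‖∑ k, c k * (K (z - a k) * ((‖z‖ : ℂ) ^ 3 / z))‖ := h2.eventually_const_lt (by linarith)
  rw [← comap_norm_atTop, Filter.eventually_comap, Filter.eventually_atTop] at h3
  obtain ⟨R, hR⟩ := h3
  refine ⟨max R 1, fun z hz => ?_⟩
  have hz1 : 1 ≤ ‖z‖ := (le_max_right _ _).trans hz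
  have h4 := hR ‖z‖ ((le_max_left _ _).trans hz) z rfl
  have h5 : ∑ k, c k * (K (z - a k) * ((‖z‖ : ℂ) ^ 3 / z)) =
      (∑ k, c k * K (z - a k)) * ((‖z‖ : ℂ) ^ 3 / z) := by
    rw [Finset.sum_mul]
    exact Finset.sum_congr rfl fun k _ => by ring
  rw [h5, norm_mul, norm_div, norm_pow, Complex.norm_real, norm_norm] at h4
  have h6 : ‖z‖ ^ 3 / ‖z‖ = ‖z‖ ^ 2 := by
    field_simp
  rw [h6] at h4
  exact h4.le

theorem big {n : ℕ} (a c : Fin n → ℂ) {p : ℝ} (hp : 0 < p) (hp2 : p < 1 / 2)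
    (hm : ∑ k, c k ≠ 0) : ∃ e : ℝ, 0 < e ∧ ∃ R : ℝ, 1 ≤ R ∧ ∀ r : ℝ, R ≤ r →
    ENNReal.ofReal (e * r) ≤ np p fun z => ∑ k, c k * K (z - a k) := by
  obtain ⟨R, hR⟩ := lower a c hm
  have hpos : 0 < ‖∑ k, c k‖ := norm_pos_iff.2 hm
  set m := ‖∑ k, c k‖ with hmd
  refine ⟨(m / 2) ^ p / 4 * Real.pi, by positivity, max R 1, le_max_right _ _, fun r hr => ?_⟩
  have hr1 : 1 ≤ r := (le_max_right _ _).trans hr
  have hrR : R ≤ r := (le_max_left _ _).trans hr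
  have hr0 : 0 < r := by linarith
  have h1 : ∀ z ∈ Metric.ball ((3 * r : ℝ) : ℂ) r, ENNReal.ofReal ((m / 2) ^ p / (4 * r)) ≤
      ‖∑ k, c k * K (z - a k)‖ₑ ^ p := by
    intro z hz
    rw [Metric.mem_ball, dist_eq_norm] at hz
    have hn3 : ‖((3 * r : ℝ) : ℂ)‖ = 3 * r := by
      rw [Complex.norm_real, Real.norm_of_nonneg (by positivity)]
    have hz1 : r ≤ ‖z‖ := by
      have := norm_sub_norm_le ((3 * r : ℝ) : ℂ) z
      rw [norm_sub_rev, hn3] at this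
      linarith
    have hz2 : ‖z‖ ≤ 4 * r := by
      have := norm_sub_norm_le z ((3 * r : ℝ) : ℂ)
      rw [hn3] at this
      linarith
    have h2 := hR z (hrR.trans hz1)
    have hz0 : 0 < ‖z‖ := by linarith
    have h3 : m / 2 / ‖z‖ ^ 2 ≤ ‖∑ k, c k * K (z - a k)‖ := by
      rw [div_le_iff₀ (by positivity)]
      exact h2
    have h4 : (m / 2 / ‖z‖ ^ 2) ^ p ≤ ‖∑ k, c k * K (z - a k)‖ ^ p :=
      Real.rpow_le_rpow (by positivity) h3 hp.le
    have h5 : (m / 2) ^ p / (4 * r) ≤ (m / 2 / ‖z‖ ^ 2) ^ p := by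
      have h6 : (‖z‖ ^ 2) ^ p ≤ 4 * r := by
        rw [← Real.rpow_natCast, ← Real.rpow_mul hz0.le]
        calc ‖z‖ ^ (((2 : ℕ) : ℝ) * p) ≤ ‖z‖ ^ (1 : ℝ) :=
              Real.rpow_le_rpow_of_exponent_le (by linarith) (by push_cast; linarith)
          _ = ‖z‖ := Real.rpow_one _
          _ ≤ 4 * r := hz2
      have h7 : 0 < (‖z‖ ^ 2) ^ p := by positivity
      rw [Real.div_rpow (x := m / 2) (y := ‖z‖ ^ 2) (by positivity) (by positivity)]
      gcongr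
    calc ENNReal.ofReal ((m / 2) ^ p / (4 * r))
        ≤ ENNReal.ofReal (‖∑ k, c k * K (z - a k)‖ ^ p) := ENNReal.ofReal_le_ofReal (h5.trans h4)
      _ = ‖∑ k, c k * K (z - a k)‖ₑ ^ p := by
          rw [← ENNReal.ofReal_rpow_of_nonneg (norm_nonneg _) hp.le, ofReal_norm]
  calc ENNReal.ofReal ((m / 2) ^ p / 4 * Real.pi * r)
      = ENNReal.ofReal ((m / 2) ^ p / (4 * r)) * volume (Metric.ball ((3 * r : ℝ) : ℂ) r) := by
        rw [Complex.volume_ball]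
        have hpi : ((NNReal.pi : NNReal) : ℝ≥0∞) = ENNReal.ofReal Real.pi := by
          rw [ENNReal.ofReal, Real.toNNReal_of_nonneg Real.pi_pos.le]
          rfl
        rw [hpi, ← ENNReal.ofReal_pow hr0.le, ← ENNReal.ofReal_mul (by positivity),
          ← ENNReal.ofReal_mul (by positivity)]
        congr 1
        field_simp
    _ = ∫⁻ _ in Metric.ball ((3 * r : ℝ) : ℂ) r, ENNReal.ofReal ((m / 2) ^ p / (4 * r)) := by
        rw [setLIntegral_const]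
    _ ≤ ∫⁻ z in Metric.ball ((3 * r : ℝ) : ℂ) r, ‖∑ k, c k * K (z - a k)‖ₑ ^ p :=
        setLIntegral_mono' Metric.isOpen_ball.measurableSet h1
    _ ≤ np p fun z => ∑ k, c k * K (z - a k) := setLIntegral_le_lintegral _ _

end RMomX

theorem pr_RMom : S_RMom := by
  intro n a c p hp hp2 hfin
  by_contra hm0
  have hm : ∑ k, (c k : ℂ) ≠ 0 := by
    intro h
    apply hm0
    have h2 : ((∑ k, c k : ℝ) : ℂ) = 0 := by
      rw [Complex.ofReal_sum]
      exact h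
    exact Complex.ofReal_eq_zero.1 h2
  obtain ⟨e, he, R, hR1, hR⟩ := RMomX.big a (fun k => (c k : ℂ)) hp hp2 hm
  have hfin' : RMomX.np p (fun z => ∑ k, (c k : ℂ) * RMomX.K (z - a k)) < ⊤ := hfin
  set N := RMomX.np p fun z => ∑ k, (c k : ℂ) * RMomX.K (z - a k) with hN
  have h1 := hR (max R ((N.toReal + 1) / e)) (le_max_left _ _)
  have h2 : ENNReal.ofReal (N.toReal + 1) ≤ N := by
    refine le_trans (ENNReal.ofReal_le_ofReal ?_) h1
    have h3 := le_max_right R ((N.toReal + 1) / e)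
    rw [div_le_iff₀ he] at h3
    linarith
  have h3 := ENNReal.toReal_mono hfin'.ne h2
  rw [ENNReal.toReal_ofReal (by positivity)] at h3
  linarith

end Pool.Agent.Work.MP_440970_an.FC
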